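import Pool.Agent.Lib.MP_1a91b9_nuT.BaseK
import Pool.Agent.Lib.MP_1a91b9_nuT.Mult.Add2
import Pool.Agent.Lib.MP_1a91b9_ntT.S3.Ring

/-!
# MC (multicubic extensions): the data of complex multiplication of `ℚ(√-3)`

The instance `cd3` is the class `CD` of `MP_1a91b9_nuT` for the field `K` of `MP_1a91b9_ntT` and the
curve `y² = x³ + 16`, the integral basis is `1, 1 + ω`.
-/

set_option autoImplicit false

namespace Pool.Agent.Lib.MP_1a91b9_ntN

open NumberField Polynomial Pool.Agent.Lib.MP_1a91b9_nuT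

noncomputable section

/-- The field `ℚ(√-3)`. -/
abbrev K3 : Type := Pool.Agent.Lib.MP_1a91b9_ntT.K

/-- The primitive third root of unity in `K3`. -/
abbrev om3 : K3 := Pool.Agent.Lib.MP_1a91b9_ntT.om

/-- The embedding. -/
abbrev emb3 : K3 →ₐ[ℚ] ℂ := Pool.Agent.Lib.MP_1a91b9_ntT.embK

/-- The primitive third root of unity in `ℂ`. -/
abbrev z3 : ℂ := Pool.Agent.Lib.MP_1a91b9_ntT.zt

/-- The primitive third root of unity in `𝓞 K3`. -/
abbrev omO3 : 𝓞 K3 := Pool.Agent.Lib.MP_1a91b9_ntT.S3.omO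

theorem coe_omO3 : (omO3 : K3) = om3 := rfl

theorem emb3_om : emb3 om3 = z3 := Pool.Agent.Lib.MP_1a91b9_ntT.embK_om

theorem z3_pow : z3 ^ 3 = 1 := Pool.Agent.Lib.MP_1a91b9_ntT.zt_spec.pow_eq_one

theorem z3_eq : z3 ^ 2 + z3 + 1 = 0 := by
  have h1 : z3 ≠ 1 := Pool.Agent.Lib.MP_1a91b9_ntT.zt_spec.ne_one (by norm_num)
  have h3 : (z3 - 1) * (z3 ^ 2 + z3 + 1) = 0 := by linear_combination z3_pow
  rcases mul_eq_zero.1 h3 with h4 | h4
  · exact absurd (sub_eq_zero.1 h4) h1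
  · exact h4

theorem om3_eq : om3 ^ 2 + om3 + 1 = 0 := by
  have h0 : om3 ^ 3 = 1 := Pool.Agent.Lib.MP_1a91b9_ntT.om_spec.pow_eq_one
  have h1 : om3 ≠ 1 := Pool.Agent.Lib.MP_1a91b9_ntT.om_spec.ne_one (by norm_num)
  have h3 : (om3 - 1) * (om3 ^ 2 + om3 + 1) = 0 := by linear_combination h0
  rcases mul_eq_zero.1 h3 with h4 | h4
  · exact absurd (sub_eq_zero.1 h4) h1
  · exact h4

theorem omO3_eq : omO3 ^ 2 + omO3 + 1 = 0 := by
  apply RingOfIntegers.ext
  simp only [map_pow, map_add, map_one, map_zero]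
  exact om3_eq

theorem z3_im : z3.im ≠ 0 := by
  intro h
  have h1 : z3 = (z3.re : ℂ) := by
    apply Complex.ext
    · simp
    · simp [h]
  have h2 := z3_eq
  rw [h1] at h2
  have h3 : (z3.re ^ 2 + z3.re + 1 : ℝ) = 0 := by exact_mod_cast h2
  nlinarith [sq_nonneg (z3.re + 1 / 2)]

/-- The primitive sixth root of unity `1 + ω` in `𝓞 K3`. -/
def taO3 : 𝓞 K3 := 1 + omO3

theorem taO3_sq : taO3 ^ 2 = omO3 := by
  rw [taO3]
  linear_combination omO3_eq

theorem coe_taO3 : (taO3 : K3) = 1 + om3 := rfl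

theorem emb3_ta : emb3 (taO3 : K3) = 1 + z3 := by
  rw [coe_taO3, map_add, map_one, emb3_om]

theorem im3 : (emb3 (taO3 : K3)).im ≠ 0 := by
  rw [emb3_ta]
  simpa using z3_im

/-- The lattice `ℤ[ω]` as a period pair. -/
abbrev PP3 : PeriodPair := mkPP (emb3 (taO3 : K3)) im3

theorem mem_PP3 {x : ℂ} : x ∈ PP3.lattice ↔ ∃ m n : ℤ, (m : ℂ) + n * z3 = x := by
  have h : PP3.ω₂ = 1 + z3 := emb3_ta
  have h1 : PP3.ω₁ = 1 := rfl
  rw [PeriodPair.mem_lattice]
  constructor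
  · rintro ⟨m, n, e⟩
    refine ⟨m + n, n, ?_⟩
    rw [← e, h, h1]
    push_cast
    ring
  · rintro ⟨m, n, e⟩
    refine ⟨m - n, n, ?_⟩
    rw [← e, h, h1]
    push_cast
    ring

theorem z3_mul_mem {x : ℂ} : z3 * x ∈ PP3.lattice ↔ x ∈ PP3.lattice := by
  have key : ∀ y : ℂ, y ∈ PP3.lattice → z3 * y ∈ PP3.lattice := by
    intro y hy
    obtain ⟨m, n, rfl⟩ := mem_PP3.1 hy
    refine mem_PP3.2 ⟨-n, m - n, ?_⟩
    push_cast
    linear_combination -(n : ℂ) * z3_eq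
  constructor
  · intro h
    have h1 := key _ (key _ h)
    have h2 : z3 * (z3 * (z3 * x)) = x := by
      linear_combination x * z3_pow
    rwa [h2] at h1
  · exact key x

/-- The multiplication by `ω` as a permutation of the lattice. -/
def oE : PP3.lattice ≃ PP3.lattice where
  toFun l := ⟨z3 * l, z3_mul_mem.2 l.2⟩
  invFun l := ⟨z3 ^ 2 * l, by
    rw [sq, mul_assoc]
    exact z3_mul_mem.2 (z3_mul_mem.2 l.2)⟩
  left_inv l := by
    ext
    show z3 ^ 2 * (z3 * (l : ℂ)) = l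
    linear_combination (l : ℂ) * z3_pow
  right_inv l := by
    ext
    show z3 * (z3 ^ 2 * (l : ℂ)) = l
    linear_combination (l : ℂ) * z3_pow

theorem coe_oE (l : PP3.lattice) : ((oE l : PP3.lattice) : ℂ) = z3 * l := rfl

theorem z3_ne : z3 ≠ 0 := by
  intro h
  have := z3_pow
  rw [h] at this
  norm_num at this

theorem PP3_om (z : ℂ) : PP3.weierstrassP (z3 * z) = z3 * PP3.weierstrassP z := by
  simp only [PeriodPair.weierstrassP]
  rw [← oE.tsum_eq, ← tsum_mul_left]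
  congr with l
  have h : (z3 ^ 2)⁻¹ = z3 := inv_eq_of_mul_eq_one_right (by linear_combination z3_pow)
  rw [coe_oE, ← mul_sub, mul_pow, mul_pow, one_div, one_div, mul_inv, mul_inv, h, one_div,
    one_div]
  ring

theorem G4_zero : PP3.G 4 = 0 := by
  have h1 : PP3.G 4 = z3 ^ 2 * PP3.G 4 := by
    conv_lhs => rw [PeriodPair.G, ← oE.tsum_eq]
    rw [PeriodPair.G, ← tsum_mul_left]
    congr with l
    have h : (z3 ^ 4)⁻¹ = z3 ^ 2 := inv_eq_of_mul_eq_one_right (by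
      linear_combination (z3 ^ 3 + 1) * z3_pow)
    rw [coe_oE, mul_pow, mul_inv, h]
  have h2 : (1 - z3 ^ 2) * PP3.G 4 = 0 := by linear_combination h1
  rcases mul_eq_zero.1 h2 with h3 | h3
  · exfalso
    have h4 : z3 ≠ 1 := Pool.Agent.Lib.MP_1a91b9_ntT.zt_spec.ne_one (by norm_num)
    apply h4
    linear_combination z3_pow + z3 * h3
  · exact h3

theorem PP3_g2 : PP3.g₂ = 0 := by rw [PeriodPair.g₂, G4_zero, mul_zero]

theorem half_notMem3 : (1 / 2 : ℂ) ∉ PP3.lattice := by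
  intro h
  obtain ⟨m, n, e⟩ := mem_PP3.1 h
  have h1 := congrArg Complex.im e
  simp at h1
  have hn : (n : ℝ) = 0 := by
    rcases h1 with h2 | h2
    · exact_mod_cast h2
    · exact absurd h2 z3_im
  have h2 := congrArg Complex.re e
  simp [hn] at h2
  have h3 : (2 * m : ℝ) = 1 := by linarith
  have h4 : 2 * m = 1 := by exact_mod_cast h3
  omega

theorem QQ3_half : PP3.derivWeierstrassP (1 / 2) = 0 := by
  have hw : (1 : ℂ) ∈ PP3.lattice := mem_PP3.2 ⟨1, 0, by simp⟩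
  have e1 := PP3.derivWeierstrassP_add_coe (-(1 / 2)) ⟨1, hw⟩
  have e2 : -(1 / 2) + ((⟨1, hw⟩ : PP3.lattice) : ℂ) = 1 / 2 := by
    show -(1 / 2) + (1 : ℂ) = 1 / 2
    norm_num
  rw [e2, PP3.derivWeierstrassP_neg] at e1
  have e3 : 2 * PP3.derivWeierstrassP (1 / 2) = 0 := by linear_combination e1
  simpa using e3

theorem halfz_notMem3 {a b : ℤ} (h : Odd a) : ((a : ℂ) / 2 + (b : ℂ) * z3 / 2) ∉ PP3.lattice := by
  intro hm
  obtain ⟨m, n, e⟩ := mem_PP3.1 hm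
  have h1 : (2 * m - a : ℂ) + (2 * n - b : ℂ) * z3 = 0 := by linear_combination 2 * e
  have h2 := congrArg Complex.im h1
  simp at h2
  have hn : (2 * n - b : ℝ) = 0 := by
    rcases h2 with h3 | h3
    · linarith
    · exact absurd h3 z3_im
  have h3 := congrArg Complex.re h1
  simp at h3
  rw [hn] at h3
  have h4 : (2 * m - a : ℝ) = 0 := by
    simpa using h3
  have h5 : 2 * m - a = 0 := by exact_mod_cast h4
  obtain ⟨c, hc⟩ := h
  omega

theorem PP3_half_ne : PP3.weierstrassP (1 / 2) ≠ 0 := by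
  intro h
  have h1 : z3 * (1 / 2) ∉ PP3.lattice := by
    rw [z3_mul_mem]
    exact half_notMem3
  have h2 : PP3.weierstrassP (z3 * (1 / 2)) = 0 := by rw [PP3_om, h, mul_zero]
  rcases Mult.P_inj half_notMem3 h1 (h.trans h2.symm) with h3 | h3
  · have h4 := halfz_notMem3 (a := 1) (b := -1) (by decide)
    rw [show (((1 : ℤ) : ℂ) / 2 + ((-1 : ℤ) : ℂ) * z3 / 2) = 1 / 2 - z3 * (1 / 2) by
      push_cast
      ring] at h4
    exact h4 h3
  · have h4 := halfz_notMem3 (a := 1) (b := 1) (by decide)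
    rw [show (((1 : ℤ) : ℂ) / 2 + ((1 : ℤ) : ℂ) * z3 / 2) = 1 / 2 + z3 * (1 / 2) by
      push_cast
      ring] at h4
    exact h4 h3

theorem g3_half : PP3.g₃ = 4 * PP3.weierstrassP (1 / 2) ^ 3 := by
  have h := PP3.derivWeierstrassP_sq (1 / 2) half_notMem3
  rw [QQ3_half, PP3_g2] at h
  linear_combination h

theorem exists_Om3 : ∃ w : ℂ, 16 * w ^ 6 = -PP3.weierstrassP (1 / 2) ^ 3 ∧ w ≠ 0 := by
  obtain ⟨w, hw⟩ := IsAlgClosed.exists_pow_nat_eq (-PP3.weierstrassP (1 / 2) ^ 3 / 16) (n := 6)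
    (by norm_num)
  refine ⟨w, by rw [hw]; ring, ?_⟩
  rintro rfl
  rw [zero_pow (by norm_num)] at hw
  exact pow_ne_zero 3 PP3_half_ne (by linear_combination 16 * hw)

/-- The period: `g₃ = -64 Om3 ^ 6`. -/
def Om3 : ℂ := exists_Om3.choose

theorem Om3_pow : PP3.g₃ = -64 * Om3 ^ 6 := by
  have h : 16 * Om3 ^ 6 = -PP3.weierstrassP (1 / 2) ^ 3 := exists_Om3.choose_spec.1
  rw [g3_half]
  linear_combination (4 : ℂ) * h

theorem Om3_ne : Om3 ≠ 0 := exists_Om3.choose_spec.2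

theorem exists_coords3 (a : 𝓞 K3) : ∃ m n : ℤ, a = (m : 𝓞 K3) + (n : 𝓞 K3) * taO3 := by
  obtain ⟨m, n, h⟩ := Pool.Agent.Lib.MP_1a91b9_ntT.S3.exists_coords a
  refine ⟨m - n, n, RingOfIntegers.ext ?_⟩
  rw [h]
  simp only [map_add, map_mul, map_intCast]
  rw [show algebraMap (𝓞 K3) K3 taO3 = 1 + om3 from rfl]
  push_cast
  ring

instance pidK3 : IsPrincipalIdealRing (𝓞 K3) :=
  IsCyclotomicExtension.Rat.three_pid K3

/-- The data of complex multiplication of the curve `y² = x³ + 16`. -/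
instance cd3 : CD where
  K := K3
  fieldK := Pool.Agent.Lib.MP_1a91b9_ntT.fieldK
  nfK := Pool.Agent.Lib.MP_1a91b9_ntT.numberFieldK
  pidK := pidK3
  emb := emb3
  ta := taO3
  gen := exists_coords3
  im := im3
  tr := 1
  nm := 1
  quad := by
    rw [taO3_sq, taO3]
    push_cast
    ring
  A := 0
  B := 16
  disc := by norm_num
  jint := by norm_num
  Om := Om3
  Om_ne := Om3_ne
  g2 := by
    rw [PP3_g2]
    simp
  g3 := by
    rw [Om3_pow]
    push_cast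
    ring
  Nt := X
  Dt := C (taO3 ^ 2)
  Nt_monic := monic_X
  Nt_deg := by simp
  Dt_deg := by simp
  Dt_lead := by rw [leadingCoeff_C]
  Nt_lo := ⟨0, by simp⟩
  Dt_lo := ⟨0, by simp⟩
  cop := by
    rw [map_X, map_C]
    refine isCoprime_comm.1 ⟨C (om3 ^ 2), 0, ?_⟩
    rw [← C_mul, zero_mul, add_zero, ← C_1]
    congr 1
    rw [taO3_sq, show algebraMap (𝓞 K3) K3 omO3 = om3 from rfl]
    have h0 : om3 ^ 3 = 1 := Pool.Agent.Lib.MP_1a91b9_ntT.om_spec.pow_eq_one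
    linear_combination h0
  mulx := by
    intro z _ _
    show eval₂ (emb3.toRingHom.comp (algebraMap (𝓞 K3) K3)) (PP3.weierstrassP z / Om3 ^ 2) X =
      PP3.weierstrassP (emb3 (taO3 : K3) * z) / Om3 ^ 2 *
        eval₂ (emb3.toRingHom.comp (algebraMap (𝓞 K3) K3)) (PP3.weierstrassP z / Om3 ^ 2)
          (C (taO3 ^ 2))
    have h0 : emb3 (taO3 : K3) * z = -(z3 * (z3 * z)) := by
      rw [emb3_ta]
      linear_combination z * z3_eq
    rw [h0, PP3.weierstrassP_neg, PP3_om, PP3_om, eval₂_X, eval₂_C, taO3_sq]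
    have h : (emb3.toRingHom.comp (algebraMap (𝓞 K3) K3)) omO3 = z3 := emb3_om
    rw [h]
    linear_combination -(PP3.weierstrassP z / Om3 ^ 2) * z3_pow
  bad := 124416
  bad_ne := by norm_num
  bad_dvd := by norm_num

theorem cdA_eq3 : (CD.A : ℤ) = 0 := rfl

theorem cdB_eq3 : (CD.B : ℤ) = 16 := rfl

theorem bad_eq3 : (CD.bad : ℤ) = 124416 := rfl

theorem cA_eq3 (F : Type*) [Ring F] : cA F = 0 := by
  rw [cA, cdA_eq3]
  norm_num

theorem cB_eq3 (F : Type*) [Ring F] : cB F = 16 := by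
  rw [cB, cdB_eq3]
  norm_num

theorem cdtr_eq3 : (CD.tr : ℤ) = 1 := rfl

theorem cdnm_eq3 : (CD.nm : ℤ) = 1 := rfl

theorem zt_eq3 : Pool.Agent.Lib.MP_1a91b9_nuT.zt = 1 + z3 := emb3_ta

theorem PP_eq3 : PP = PP3 := rfl

theorem Om_eq3 : Om = Om3 := rfl

end

end Pool.Agent.Lib.MP_1a91b9_ntN
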