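import Pool.Agent.Lib.MP_1a91b9_nt.TwistRank

/-!
# MC (multicubic extensions): the points of `y² + d y = x³` over a cubic extension

`finite_step3`: let `N` contain a primitive third root of unity and `N' = N(x)`, `x³ = a`. If the curves
`y² + d y = x³`, `y² + a d y = x³` and `y² + a² d y = x³` have finitely many points over `N`, then
`y² + d y = x³` has finitely many points over `N'`.
-/

set_option autoImplicit false

namespace Pool.Agent.Lib.MP_1a91b9_ntN

open WeierstrassCurve Pool.Agent.Lib.MP_1a91b9_nt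

universe u

section group
variable {A : Type u} [AddCommGroup A]

theorem finite_pre (f : A →+ A) (hf : {a : A | f a = 0}.Finite) {B : Set A} (hB : B.Finite) :
    {a : A | f a ∈ B}.Finite := by
  refine Set.Finite.of_finite_fibers (fun a => f a) (hB.subset ?_) ?_
  · rintro _ ⟨a, ha, rfl⟩
    exact ha
  · rintro _ ⟨a, -, rfl⟩
    have h5 : Set.Finite ((fun b => a + b) '' {b : A | f b = 0}) := hf.image _
    refine h5.subset ?_
    rintro b ⟨-, hb⟩
    have hb' : f b = f a := hb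
    refine ⟨b - a, ?_, ?_⟩
    · show f (b - a) = 0
      rw [map_sub, hb', sub_self]
    · show a + (b - a) = b
      abel

/-- a group with an automorphism of order three whose eigengroups are finite -/
theorem finite_three (ρ μ : A →+ A) (hρ : ∀ a, ρ (ρ (ρ a)) = a)
    (hμ : ∀ a, μ (μ (μ a)) = a) (hc : ∀ a, ρ (μ a) = μ (ρ a))
    (h0 : {a : A | ρ a = a}.Finite) (h1 : {a : A | ρ a = μ a}.Finite)
    (h2 : {a : A | ρ a = μ (μ a)}.Finite) (hk : {a : A | μ a = a}.Finite) : Finite A := by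
  obtain ⟨D, hD⟩ : ∃ D : A →+ A, D = AddMonoidHom.id A - μ := ⟨_, rfl⟩
  obtain ⟨D', hD'⟩ : ∃ D : A →+ A, D = AddMonoidHom.id A - μ.comp μ := ⟨_, rfl⟩
  have eD : ∀ a, D a = a - μ a := fun a => by rw [hD]; rfl
  have eD' : ∀ a, D' a = a - μ (μ a) := fun a => by rw [hD']; rfl
  have kD : {a : A | D a = 0}.Finite := by
    refine hk.subset fun a ha => ?_
    have h3 : D a = 0 := ha
    rw [eD, sub_eq_zero] at h3
    exact h3.symm
  have kD' : {a : A | D' a = 0}.Finite := by
    refine hk.subset fun a ha => ?_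
    have h3 : D' a = 0 := ha
    rw [eD', sub_eq_zero] at h3
    have h4 := congrArg μ h3
    rw [hμ] at h4
    exact h4
  have hfin : ∀ B : Set A, B.Finite → {a : A | D (D' a) ∈ B}.Finite := fun B hB =>
    finite_pre D' kD' (finite_pre D kD hB)
  obtain ⟨ψ, hψ⟩ : ∃ ψ : A → A, ψ = fun a => a + μ a + μ (μ a) := ⟨_, rfl⟩
  have eψ : ∀ a, ψ a = a + μ a + μ (μ a) := fun a => by rw [hψ]
  have kψ : ∀ a, ψ a ∈ {a : A | μ a = a} := by
    intro a
    rw [eψ]
    show μ (a + μ a + μ (μ a)) = a + μ a + μ (μ a)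
    rw [map_add, map_add, hμ]
    abel
  let F : A × A × A × A × A × A → A := fun x =>
    x.1 + x.2.1 + x.2.2.1 - x.2.2.2.1 - x.2.2.2.2.1 - x.2.2.2.2.2
  have hB : (F '' ({a : A | ρ a = a} ×ˢ {a : A | ρ a = μ a} ×ˢ {a : A | ρ a = μ (μ a)} ×ˢ
      {a : A | μ a = a} ×ˢ {a : A | μ a = a} ×ˢ {a : A | μ a = a})).Finite :=
    (h0.prod (h1.prod (h2.prod (hk.prod (hk.prod hk))))).image _
  have h4 := hfin _ hB
  refine Set.finite_univ_iff.1 (h4.subset ?_)
  rintro a -
  refine ⟨(a + ρ a + ρ (ρ a), a + μ (μ (ρ a)) + μ (ρ (ρ a)), a + μ (ρ a) + μ (μ (ρ (ρ a))),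
    ψ a, ψ (ρ a), ψ (ρ (ρ a))), ⟨?_, ?_, ?_, kψ _, kψ _, kψ _⟩, ?_⟩
  · show ρ (a + ρ a + ρ (ρ a)) = a + ρ a + ρ (ρ a)
    rw [map_add, map_add, hρ]
    abel
  · show ρ (a + μ (μ (ρ a)) + μ (ρ (ρ a))) = μ (a + μ (μ (ρ a)) + μ (ρ (ρ a)))
    simp only [map_add, hc, hρ, hμ]
    abel
  · show ρ (a + μ (ρ a) + μ (μ (ρ (ρ a)))) = μ (μ (a + μ (ρ a) + μ (μ (ρ (ρ a)))))
    simp only [map_add, hc, hρ, hμ]
    abel
  · show (a + ρ a + ρ (ρ a)) + (a + μ (μ (ρ a)) + μ (ρ (ρ a))) +
      (a + μ (ρ a) + μ (μ (ρ (ρ a)))) - ψ a - ψ (ρ a) - ψ (ρ (ρ a)) = D (D' a)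
    rw [eψ, eψ, eψ, eD, eD', map_sub, hμ]
    abel

end group

section gal
variable {K L : Type u} [Field K] [Field L] [Algebra K L]

/-- the automorphism of a cubic step -/
theorem exists_sigma3 {w : K} (hw : IsPrimitiveRoot w 3) {a : K} {x : L}
    (hx : x ^ 3 = algebraMap K L a) (hn : ¬ ∃ y : K, algebraMap K L y = x)
    (hgen : ∀ z : L, ∃ b c e : K, z = algebraMap K L b + algebraMap K L c * x +
      algebraMap K L e * x ^ 2) :
    ∃ σ : Gal(L/K), σ x = algebraMap K L w * x ∧ (∀ z, σ (σ (σ z)) = z) ∧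
      ∀ z : L, σ z = z → ∃ b : K, algebraMap K L b = z := by
  have hw3 : w ^ 3 = 1 := hw.pow_eq_one
  have hw1 : w ≠ 1 := hw.ne_one (by norm_num)
  have hwL : IsPrimitiveRoot (algebraMap K L w) 3 := hw.map_of_injective (algebraMap K L).injective
  have hx0 : x ≠ 0 := by
    rintro rfl
    exact hn ⟨0, map_zero _⟩
  have H : Irreducible (Polynomial.X ^ 3 - Polynomial.C a) := by
    refine X_pow_sub_C_irreducible_of_prime Nat.prime_three fun b hb => ?_
    have h1 : (x / algebraMap K L b) ^ 3 = 1 := by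
      rw [div_pow, hx, ← map_pow, hb, div_self]
      rw [← hx]
      exact pow_ne_zero 3 hx0
    obtain ⟨i, -, hi⟩ := hwL.eq_pow_of_pow_eq_one h1
    have hb0 : algebraMap K L b ≠ 0 := by
      intro h0
      have h2 : b = 0 := (map_eq_zero _).1 h0
      rw [h2, zero_pow three_ne_zero] at hb
      rw [← hb, map_zero] at hx
      exact hx0 ((pow_eq_zero_iff three_ne_zero).1 hx)
    apply hn
    refine ⟨w ^ i * b, ?_⟩
    rw [map_mul, map_pow, hi, div_mul_cancel₀ _ hb0]
  have hsp : Polynomial.IsSplittingField K L (Polynomial.X ^ 3 - Polynomial.C a) := by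
    constructor
    · rw [Polynomial.map_sub, Polynomial.map_pow, Polynomial.map_C, Polynomial.map_X]
      exact X_pow_sub_C_splits_of_isPrimitiveRoot hwL hx
    · rw [eq_top_iff]
      rintro z -
      have hxm : x ∈ Algebra.adjoin K
          ((Polynomial.X ^ 3 - Polynomial.C a : Polynomial K).rootSet L : Set L) := by
        apply Algebra.subset_adjoin
        rw [Polynomial.mem_rootSet_of_ne (Polynomial.X_pow_sub_C_ne_zero (by norm_num) a),
          Polynomial.aeval_def, Polynomial.eval₂_sub, Polynomial.eval₂_X_pow,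
          Polynomial.eval₂_C, hx, sub_self]
      obtain ⟨b, c, e, rfl⟩ := hgen z
      exact add_mem (add_mem (algebraMap_mem _ _) (mul_mem (algebraMap_mem _ _) hxm))
        (mul_mem (algebraMap_mem _ _) (pow_mem hxm 2))
  have : NeZero 3 := ⟨three_ne_zero⟩
  obtain ⟨σ, hσ⟩ : ∃ σ : Gal(L/K), σ = (autEquivZmod H L hw).symm
      (Multiplicative.ofAdd ((1 : ℕ) : ZMod 3)) := ⟨_, rfl⟩
  have hσx : σ x = algebraMap K L w * x := by
    rw [hσ, autEquivZmod_symm_apply_natCast H L hx hw 1, pow_one, Algebra.smul_def]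
  have hσx2 : ∀ b c e : K, σ (algebraMap K L b + algebraMap K L c * x +
      algebraMap K L e * x ^ 2) = algebraMap K L b + algebraMap K L (c * w) * x +
      algebraMap K L (e * w ^ 2) * x ^ 2 := by
    intro b c e
    simp only [map_add, map_mul, map_pow, AlgEquiv.commutes, hσx]
    ring
  refine ⟨σ, hσx, fun z => ?_, fun z hz => ?_⟩
  · obtain ⟨b, c, e, rfl⟩ := hgen z
    rw [hσx2, hσx2, hσx2]
    have e1 : c * w * w * w = c := by linear_combination c * hw3
    have e2 : e * w ^ 2 * w ^ 2 * w ^ 2 = e := by linear_combination e * (w ^ 3 + 1) * hw3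
    rw [e1, e2]
  · obtain ⟨b, c, e, rfl⟩ := hgen z
    rw [hσx2] at hz
    have h1 : algebraMap K L (c * (w - 1)) * x + algebraMap K L (e * (w ^ 2 - 1)) * x ^ 2 = 0 := by
      have h2 : algebraMap K L (c * (w - 1)) * x + algebraMap K L (e * (w ^ 2 - 1)) * x ^ 2 =
          (algebraMap K L b + algebraMap K L (c * w) * x + algebraMap K L (e * w ^ 2) * x ^ 2) -
          (algebraMap K L b + algebraMap K L c * x + algebraMap K L e * x ^ 2) := by
        simp only [map_mul, map_sub, map_one, map_pow]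
        ring
      rw [h2, hz, sub_self]
    have h3 : algebraMap K L (c * (w - 1)) + algebraMap K L (e * (w ^ 2 - 1)) * x = 0 := by
      have h4 : x * (algebraMap K L (c * (w - 1)) + algebraMap K L (e * (w ^ 2 - 1)) * x) = 0 := by
        linear_combination h1
      exact (mul_eq_zero.1 h4).resolve_left hx0
    have hw2 : w ^ 2 - 1 ≠ 0 := by
      intro h4
      apply hw1
      linear_combination hw3 - w * h4
    have he : e = 0 := by
      by_contra he
      apply hn
      have h5 : e * (w ^ 2 - 1) ≠ 0 := mul_ne_zero he hw2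
      refine ⟨-(c * (w - 1)) / (e * (w ^ 2 - 1)), ?_⟩
      have h6 : algebraMap K L (e * (w ^ 2 - 1)) ≠ 0 := (map_ne_zero _).2 h5
      rw [map_div₀, map_neg, div_eq_iff h6]
      linear_combination -h3
    have hc : c = 0 := by
      rw [he, zero_mul, map_zero, zero_mul, add_zero] at h3
      exact (mul_eq_zero.1 ((map_eq_zero _).1 h3)).resolve_right (sub_ne_zero.2 hw1)
    refine ⟨b, ?_⟩
    rw [he, hc, map_zero, zero_mul, zero_mul, add_zero, add_zero]

end gal

section curve
variable {K L : Type u} [Field K] [Field L] [Algebra K L]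

/-- an eigengroup of the automorphism is contained in the group of a form -/
theorem eig_finite [DecidableEq L] [DecidableEq K] (d c : K) (t v : L) (ht : t ≠ 0)
    (htc : t ^ 3 = algebraMap K L c) (σ : Gal(L/K)) (hσt : σ t = v * t) (hv : v ^ 3 = 1)
    (hfix : ∀ z : L, σ z = z → ∃ a : K, algebraMap K L a = z)
    (S S' : WeierstrassCurve K) (hS : S = ⟨0, 0, d, 0, 0⟩) (hS' : S' = ⟨0, 0, c * d, 0, 0⟩)
    (hfin : Finite S'.toAffine.Point)
    (ρ : (S.baseChange L).toAffine.Point → (S.baseChange L).toAffine.Point)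
    (hρ : ∀ x y h, ∃ h', ρ (WeierstrassCurve.Affine.Point.some x y h) =
      WeierstrassCurve.Affine.Point.some (v * x) y h') :
    {P : (S.baseChange L).toAffine.Point | galRho (M := L) S σ P = ρ P}.Finite := by
  have hbc : S'.baseChange K = S' := S'.map_id
  have hf0 : Finite (S'.baseChange K).toAffine.Point := by rw [hbc]; exact hfin
  have hv0 : v ≠ 0 := by
    rintro rfl
    rw [zero_pow three_ne_zero] at hv
    exact zero_ne_one hv
  let f : (S'.baseChange K).toAffine.Point →ₗ[ℤ] (S'.baseChange L).toAffine.Point :=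
    (WeierstrassCurve.Affine.Point.map (W' := S') (Algebra.ofId K L)).toIntLinearMap
  obtain ⟨e, he⟩ := twist_equiv (S.baseChange L) (S'.baseChange L)
    ⟨(Units.mk0 t ht)⁻¹, 0, 0, 0⟩ (by
      rw [hS, hS']
      refine WeierstrassCurve.ext ?_ ?_ ?_ ?_ ?_
      · simp [variableChange_a₁, WeierstrassCurve.baseChange]
      · simp [variableChange_a₂, WeierstrassCurve.baseChange]
      · rw [variableChange_a₃]
        change algebraMap K L (c * d) = _
        rw [map_mul, ← htc]
        simp [WeierstrassCurve.baseChange]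
      · simp [variableChange_a₄, WeierstrassCurve.baseChange]
      · simp [variableChange_a₆, WeierstrassCurve.baseChange])
  have he' : ∀ (x y : L) (h : (S'.baseChange L).toAffine.Nonsingular x y), ∃ h',
      e (WeierstrassCurve.Affine.Point.some x y h) =
        WeierstrassCurve.Affine.Point.some (t⁻¹ ^ 2 * x) (t⁻¹ ^ 3 * y) h' := by
    intro x y h
    obtain ⟨h', hh⟩ := he x y h
    have e1 : (((⟨(Units.mk0 t ht)⁻¹, 0, 0, 0⟩ : WeierstrassCurve.VariableChange L).u : Lˣ) : L) ^ 2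
        * x + 0 = t⁻¹ ^ 2 * x := by simp
    have e2 : (((⟨(Units.mk0 t ht)⁻¹, 0, 0, 0⟩ : WeierstrassCurve.VariableChange L).u : Lˣ) : L) ^ 3
        * y + (((⟨(Units.mk0 t ht)⁻¹, 0, 0, 0⟩ : WeierstrassCurve.VariableChange L).u : Lˣ) : L) ^ 2
        * 0 * x + 0 = t⁻¹ ^ 3 * y := by simp
    have h'' : (S.baseChange L).toAffine.Nonsingular (t⁻¹ ^ 2 * x) (t⁻¹ ^ 3 * y) := by
      rw [← e1, ← e2]
      exact h'
    refine ⟨h'', ?_⟩
    rw [hh, WeierstrassCurve.Affine.Point.some.injEq]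
    exact ⟨e1, e2⟩
  let g : (S'.baseChange K).toAffine.Point → (S.baseChange L).toAffine.Point := fun Q => e (f Q)
  have hti0 : t⁻¹ ≠ 0 := inv_ne_zero ht
  have hti : σ (t⁻¹ ^ 2) = v * t⁻¹ ^ 2 := by
    rw [map_pow, map_inv₀, hσt]
    field_simp
    linear_combination -hv
  have hti3 : σ (t⁻¹ ^ 3) = t⁻¹ ^ 3 := by
    rw [inv_pow, map_inv₀, map_pow, hσt, mul_pow, hv, one_mul]
  refine (Set.finite_range g).subset ?_
  intro P hP
  obtain ⟨Q, rfl⟩ := e.surjective P
  rcases Q with _ | ⟨x, y, hxy⟩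
  · refine ⟨0, ?_⟩
    show e (f 0) = _
    rw [map_zero]
    rfl
  · obtain ⟨h', hh⟩ := he' x y hxy
    have hP' : galRho S σ (e (WeierstrassCurve.Affine.Point.some x y hxy)) =
      ρ (e (WeierstrassCurve.Affine.Point.some x y hxy)) := hP
    rw [hh] at hP'
    obtain ⟨h'', hh'⟩ := hρ (t⁻¹ ^ 2 * x) (t⁻¹ ^ 3 * y) h'
    rw [hh'] at hP'
    change WeierstrassCurve.Affine.Point.some _ _ _ =
      WeierstrassCurve.Affine.Point.some _ _ _ at hP'
    rw [WeierstrassCurve.Affine.Point.some.injEq] at hP'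
    obtain ⟨hx, hy⟩ := hP'
    have hx' : σ (t⁻¹ ^ 2 * x) = v * (t⁻¹ ^ 2 * x) := hx
    have hy' : σ (t⁻¹ ^ 3 * y) = t⁻¹ ^ 3 * y := hy
    rw [map_mul, hti, mul_assoc] at hx'
    rw [map_mul, hti3] at hy'
    have hx2 : σ x = x := mul_left_cancel₀ (pow_ne_zero 2 hti0) (mul_left_cancel₀ hv0 hx')
    have hy2 : σ y = y := mul_left_cancel₀ (pow_ne_zero 3 hti0) hy'
    obtain ⟨a, rfl⟩ := hfix x hx2
    obtain ⟨b, rfl⟩ := hfix y hy2
    refine ⟨WeierstrassCurve.Affine.Point.some a b
      ((WeierstrassCurve.Affine.baseChange_nonsingular S'.toAffine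
        (Algebra.ofId K L).injective _ _).mp hxy), rfl⟩

/-- the step, base change form -/
theorem cubic_finite {w : K} (hw : IsPrimitiveRoot w 3) {a : K} {x : L}
    (hx : x ^ 3 = algebraMap K L a) (hn : ¬ ∃ y : K, algebraMap K L y = x)
    (hgen : ∀ z : L, ∃ b c e : K, z = algebraMap K L b + algebraMap K L c * x +
      algebraMap K L e * x ^ 2) (d : K)
    (S S1 S2 : WeierstrassCurve K) (hS : S = ⟨0, 0, d, 0, 0⟩) (hS1 : S1 = ⟨0, 0, a * d, 0, 0⟩)
    (hS2 : S2 = ⟨0, 0, a ^ 2 * d, 0, 0⟩) (h0 : Finite S.toAffine.Point)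
    (h1 : Finite S1.toAffine.Point) (h2 : Finite S2.toAffine.Point) :
    Finite (S.baseChange L).toAffine.Point := by
  obtain ⟨σ, hσ, hσ3, hfix⟩ := exists_sigma3 hw hx hn hgen
  have hw3 : w ^ 3 = 1 := hw.pow_eq_one
  have hx0 : x ≠ 0 := by
    rintro rfl
    exact hn ⟨0, map_zero _⟩
  obtain ⟨v, hv⟩ : ∃ v : L, v = algebraMap K L w := ⟨_, rfl⟩
  have hv3 : v ^ 3 = 1 := by rw [hv, ← map_pow, hw3, map_one]
  have hv1 : v ≠ 1 := by
    intro h
    have h3 : IsPrimitiveRoot v 3 := by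
      rw [hv]
      exact hw.map_of_injective (algebraMap K L).injective
    exact h3.ne_one (by norm_num) h
  have hv2 : v ^ 2 + v + 1 = 0 := by
    have h3 : (v - 1) * (v ^ 2 + v + 1) = 0 := by linear_combination hv3
    exact (mul_eq_zero.1 h3).resolve_left (sub_ne_zero.2 hv1)
  have hv0 : v ≠ 0 := by
    rintro rfl
    rw [zero_pow three_ne_zero] at hv3
    exact zero_ne_one hv3
  rw [← hv] at hσ
  have hσv : σ v = v := by rw [hv, AlgEquiv.commutes]
  let _ : DecidableEq L := Classical.decEq L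
  let _ : DecidableEq K := Classical.decEq K
  -- the automorphism of the curve
  obtain ⟨μ, hμ⟩ := twist_equiv (S.baseChange L) (S.baseChange L)
    ⟨Units.mk0 (v ^ 2) (pow_ne_zero 2 hv0), 0, 0, 0⟩ (by
      rw [hS]
      refine WeierstrassCurve.ext ?_ ?_ ?_ ?_ ?_
      · simp [variableChange_a₁, WeierstrassCurve.baseChange]
      · simp [variableChange_a₂, WeierstrassCurve.baseChange]
      · rw [variableChange_a₃]
        change algebraMap K L d = _
        have e : (v ^ 2) ^ 3 = 1 := by linear_combination (v ^ 3 + 1) * hv3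
        simp [WeierstrassCurve.baseChange, e]
      · simp [variableChange_a₄, WeierstrassCurve.baseChange]
      · simp [variableChange_a₆, WeierstrassCurve.baseChange])
  have hμ' : ∀ (X Y : L) (h : (S.baseChange L).toAffine.Nonsingular X Y), ∃ h',
      μ (WeierstrassCurve.Affine.Point.some X Y h) =
        WeierstrassCurve.Affine.Point.some (v * X) Y h' := by
    intro X Y h
    obtain ⟨h', hh⟩ := hμ X Y h
    have e1 : (((⟨Units.mk0 (v ^ 2) (pow_ne_zero 2 hv0), 0, 0, 0⟩ :
        WeierstrassCurve.VariableChange L).u : Lˣ) : L) ^ 2 * X + 0 = v * X := by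
      show (v ^ 2) ^ 2 * X + 0 = v * X
      linear_combination (v * X) * hv3
    have e2 : (((⟨Units.mk0 (v ^ 2) (pow_ne_zero 2 hv0), 0, 0, 0⟩ :
        WeierstrassCurve.VariableChange L).u : Lˣ) : L) ^ 3 * Y +
        (((⟨Units.mk0 (v ^ 2) (pow_ne_zero 2 hv0), 0, 0, 0⟩ :
        WeierstrassCurve.VariableChange L).u : Lˣ) : L) ^ 2 * 0 * X + 0 = Y := by
      show (v ^ 2) ^ 3 * Y + (v ^ 2) ^ 2 * 0 * X + 0 = Y
      linear_combination (Y * (v ^ 3 + 1)) * hv3
    have h'' : (S.baseChange L).toAffine.Nonsingular (v * X) Y :=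
      Eq.mp (congrArg₂ (S.baseChange L).toAffine.Nonsingular e1 e2) h'
    refine ⟨h'', ?_⟩
    rw [hh, WeierstrassCurve.Affine.Point.some.injEq]
    exact ⟨e1, e2⟩
  let ρ : (S.baseChange L).toAffine.Point →+ (S.baseChange L).toAffine.Point :=
    (galRho (M := L) S σ).toAddMonoidHom
  have hρ' : ∀ (X Y : L) (h : (S.baseChange L).toAffine.Nonsingular X Y), ∃ h',
      ρ (WeierstrassCurve.Affine.Point.some X Y h) =
        WeierstrassCurve.Affine.Point.some (σ X) (σ Y) h' := fun X Y h => ⟨_, rfl⟩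
  have hρ3 : ∀ P, ρ (ρ (ρ P)) = P := by
    intro P
    rcases P with _ | ⟨X, Y, h⟩
    · show ρ (ρ (ρ 0)) = 0
      rw [map_zero, map_zero, map_zero]
    · obtain ⟨g1, e1⟩ := hρ' X Y h
      obtain ⟨g2, e2⟩ := hρ' _ _ g1
      obtain ⟨g3, e3⟩ := hρ' _ _ g2
      rw [e1, e2, e3, WeierstrassCurve.Affine.Point.some.injEq]
      exact ⟨hσ3 X, hσ3 Y⟩
  have hcomm : ∀ P, ρ (μ P) = μ (ρ P) := by
    intro P
    rcases P with _ | ⟨X, Y, h⟩
    · show ρ (μ 0) = μ (ρ 0)
      rw [map_zero, map_zero, map_zero]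
    · obtain ⟨g1, e1⟩ := hρ' X Y h
      obtain ⟨g2, e2⟩ := hμ' _ _ g1
      obtain ⟨g3, e3⟩ := hμ' X Y h
      obtain ⟨g4, e4⟩ := hρ' _ _ g3
      rw [e1, e2, e3, e4, WeierstrassCurve.Affine.Point.some.injEq]
      exact ⟨by rw [map_mul, hσv], rfl⟩
  have hμ3 : ∀ P, μ (μ (μ P)) = P := by
    intro P
    rcases P with _ | ⟨X, Y, h⟩
    · show μ (μ (μ 0)) = 0
      rw [map_zero, map_zero, map_zero]
    · obtain ⟨g1, e1⟩ := hμ' X Y h
      obtain ⟨g2, e2⟩ := hμ' _ _ g1
      obtain ⟨g3, e3⟩ := hμ' _ _ g2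
      rw [e1, e2, e3, WeierstrassCurve.Affine.Point.some.injEq]
      exact ⟨by linear_combination X * hv3, rfl⟩
  refine finite_three ρ μ.toAddMonoidHom hρ3 hμ3 hcomm ?_ ?_ ?_ ?_
  · refine eig_finite d 1 1 1 one_ne_zero (by rw [one_pow, map_one]) σ (by rw [map_one, mul_one])
      (one_pow 3) hfix S S hS (by rw [one_mul]; exact hS) h0 (fun P => P) fun X Y h => ?_
    have h' : (S.baseChange L).toAffine.Nonsingular (1 * X) Y := by rw [one_mul]; exact h
    refine ⟨h', ?_⟩
    rw [WeierstrassCurve.Affine.Point.some.injEq]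
    exact ⟨(one_mul X).symm, rfl⟩
  · exact eig_finite d a x v hx0 hx σ hσ hv3 hfix S S1 hS hS1 h1 μ hμ'
  · refine eig_finite d (a ^ 2) (x ^ 2) (v ^ 2) (pow_ne_zero 2 hx0)
      (by rw [map_pow, ← hx]; ring) σ (by rw [map_pow, hσ]; ring)
      (by linear_combination (v ^ 3 + 1) * hv3) hfix S S2 hS hS2 h2 (fun P => μ (μ P))
      fun X Y h => ?_
    obtain ⟨g1, e1⟩ := hμ' X Y h
    obtain ⟨g2, e2⟩ := hμ' _ _ g1
    have h' : (S.baseChange L).toAffine.Nonsingular (v ^ 2 * X) Y := by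
      have e : v ^ 2 * X = v * (v * X) := by ring
      rw [e]
      exact g2
    refine ⟨h', ?_⟩
    show μ (μ _) = _
    rw [e1, e2, WeierstrassCurve.Affine.Point.some.injEq]
    exact ⟨by ring, rfl⟩
  · -- the kernel of `1 - μ`
    have hT : {Y : L | Y ^ 2 + algebraMap K L d * Y = 0}.Finite := by
      refine Set.Finite.subset (Set.toFinite {0, -algebraMap K L d}) fun Y hY => ?_
      have h3 : Y * (Y + algebraMap K L d) = 0 := by
        have h4 : Y ^ 2 + algebraMap K L d * Y = 0 := hY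
        linear_combination h4
      rcases mul_eq_zero.1 h3 with h4 | h4
      · exact Or.inl h4
      · exact Or.inr (eq_neg_of_add_eq_zero_left h4)
    have ha : ∀ Y : L, (S.baseChange L).toAffine.Equation 0 Y ↔
        Y ^ 2 + algebraMap K L d * Y = 0 := by
      intro Y
      rw [WeierstrassCurve.Affine.equation_iff]
      have e1 : (S.baseChange L).toAffine.a₁ = 0 := by
        change algebraMap K L S.a₁ = 0
        rw [hS, map_zero]
      have e3 : (S.baseChange L).toAffine.a₃ = algebraMap K L d := by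
        change algebraMap K L S.a₃ = _
        rw [hS]
      have e6 : (S.baseChange L).toAffine.a₆ = 0 := by
        change algebraMap K L S.a₆ = 0
        rw [hS, map_zero]
      rw [e1, e3, e6]
      constructor
      · intro h
        linear_combination h
      · intro h
        linear_combination h
    let _ : ∀ Y : L, Decidable ((S.baseChange L).toAffine.Nonsingular 0 Y) := fun _ =>
      Classical.dec _
    let g : L → (S.baseChange L).toAffine.Point := fun Y =>
      if h : (S.baseChange L).toAffine.Nonsingular 0 Y then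
        WeierstrassCurve.Affine.Point.some 0 Y h else 0
    refine Set.Finite.subset ((hT.image g).union (Set.toFinite {0})) fun P hP => ?_
    have hP' : μ P = P := hP
    rcases P with _ | ⟨X, Y, h⟩
    · exact Or.inr rfl
    · left
      obtain ⟨g1, e1⟩ := hμ' X Y h
      rw [e1, WeierstrassCurve.Affine.Point.some.injEq] at hP'
      have hX : X = 0 := by
        have h3 : (v - 1) * X = 0 := by linear_combination hP'.1
        exact (mul_eq_zero.1 h3).resolve_left (sub_ne_zero.2 hv1)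
      subst hX
      refine ⟨Y, (ha Y).1 h.1, ?_⟩
      show (if h : (S.baseChange L).toAffine.Nonsingular 0 Y then
        WeierstrassCurve.Affine.Point.some 0 Y h else 0) = _
      rw [dif_pos h]

end curve

/-- **The step for the curves `y² + d y = x³`.** -/
theorem finite_step3 {N N' : Type u} [Field N] [NumberField N] [Field N'] [NumberField N']
    [Algebra N N'] {w : N} (hw : IsPrimitiveRoot w 3) {a : N} {x : N'}
    (hx : x ^ 3 = algebraMap N N' a)
    (hn : ¬ ∃ y : N, algebraMap N N' y = x)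
    (hgen : ∀ z : N', ∃ b c e : N, z = algebraMap N N' b + algebraMap N N' c * x +
      algebraMap N N' e * x ^ 2) (d : N)
    (h0 : Finite (⟨0, 0, d, 0, 0⟩ : WeierstrassCurve N).toAffine.Point)
    (h1 : Finite (⟨0, 0, a * d, 0, 0⟩ : WeierstrassCurve N).toAffine.Point)
    (h2 : Finite (⟨0, 0, a ^ 2 * d, 0, 0⟩ : WeierstrassCurve N).toAffine.Point) :
    Finite (⟨0, 0, algebraMap N N' d, 0, 0⟩ : WeierstrassCurve N').toAffine.Point := by
  have h3 := cubic_finite hw hx hn hgen d ⟨0, 0, d, 0, 0⟩ ⟨0, 0, a * d, 0, 0⟩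
    ⟨0, 0, a ^ 2 * d, 0, 0⟩ rfl rfl rfl h0 h1 h2
  have h4 : (⟨0, 0, d, 0, 0⟩ : WeierstrassCurve N).baseChange N' =
      ⟨0, 0, algebraMap N N' d, 0, 0⟩ := by
    refine WeierstrassCurve.ext ?_ ?_ rfl ?_ ?_
    · exact map_zero _
    · exact map_zero _
    · exact map_zero _
    · exact map_zero _
  rw [h4] at h3
  exact h3

end Pool.Agent.Lib.MP_1a91b9_ntN
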