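import Pool.Agent.Lib.MP_1a91b9_ntN.F.Cls
import Pool.Agent.Lib.MP_1a91b9_ntN.F.F5c
import Pool.Agent.Lib.MP_1a91b9_nuX.LG.Main

/-!
# MC: from `ℚ(√-3)` to a multicubic extension

`ChainHyp3`: what has to be known about the L-series of the curves `y² + d y = x³` in a cubic step.
-/

set_option autoImplicit false

namespace Pool.Agent.Lib.MP_1a91b9_ntN

open NumberField WeierstrassCurve Pool.Agent.Lib.MP_1a91b9_nt Pool.Agent.Lib.MP_1a91b9_ntT
open Pool.Agent.Lib.MP_1a91b9_nuX.LG (LConcl)

/-- the curve `y² + d y = x³` over the field `F` -/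
noncomputable def Wt (F : Type*) [Field F] [Algebra K F] (d : 𝓞 K) : WeierstrassCurve F :=
  ⟨0, 0, algebraMap K F (d : K), 0, 0⟩

theorem Wt_K (d : 𝓞 K) : Wt K d = ⟨0, 0, (d : K), 0, 0⟩ := rfl

theorem Wt_map {N F : Type*} [Field N] [Field F] [Algebra K N]
    [Algebra K F] [Algebra N F] [IsScalarTower K N F] (d : 𝓞 K) :
    (Wt N d).map (algebraMap N F) = Wt F d := by
  refine WeierstrassCurve.ext ?_ ?_ ?_ ?_ ?_
  · exact map_zero _
  · exact map_zero _
  · show algebraMap N F (algebraMap K N (d : K)) = algebraMap K F (d : K)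
    rw [← IsScalarTower.algebraMap_apply K N F]
  · exact map_zero _
  · exact map_zero _

/-- what has to be known about the L-series -/
structure ChainHyp3 : Prop where
  base : ∀ (F : Type) [Field F] [NumberField F] [Algebra K F],
    Function.Bijective (algebraMap K F) → ∀ d : 𝓞 K, d ≠ 0 → LConcl (Wt K d) → LConcl (Wt F d)
  step : ∀ (F F' : Type) [Field F] [NumberField F] [Algebra K F] [Field F'] [NumberField F']
      [Algebra K F'] [Algebra F F'] [IsScalarTower K F F'] (A : List (𝓞 K)) (a : 𝓞 K)
      (x : F'), x ^ 3 = algebraMap K F' (a : K) → (¬ ∃ y : F, algebraMap F F' y = x) →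
      (∀ z : F', ∃ b c e : F, z = algebraMap F F' b + algebraMap F F' c * x +
        algebraMap F F' e * x ^ 2) →
      MCT F A → ∀ d : 𝓞 K, d ≠ 0 → LConcl (Wt F d) → LConcl (Wt F (a * d)) →
      LConcl (Wt F (a ^ 2 * d)) → LConcl (Wt F' d)

/-- the points over an isomorphic field -/
theorem finite_base3 {F : Type} [Field F] [NumberField F] [Algebra K F]
    (hb : Function.Bijective (algebraMap K F)) (d : 𝓞 K)
    (h : Finite (Wt K d).toAffine.Point) : Finite (Wt F d).toAffine.Point := by
  obtain ⟨e, he⟩ : ∃ e : K ≃+* F, ∀ x, e x = algebraMap K F x :=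
    ⟨RingEquiv.ofBijective (algebraMap K F) hb, fun x => rfl⟩
  have h1 : (Wt F d).map (e.symm : F →+* K) = Wt K d := by
    refine WeierstrassCurve.ext ?_ ?_ ?_ ?_ ?_
    · exact map_zero _
    · exact map_zero _
    · show e.symm (algebraMap K F (d : K)) = (d : K)
      rw [← he, RingEquiv.symm_apply_apply]
    · exact map_zero _
    · exact map_zero _
  have h2 : Finite ((Wt F d).map (e.symm : F →+* K)).toAffine.Point := by
    rw [h1]
    exact h
  exact Finite.of_injective _ (Pool.Agent.Lib.MP_1a91b9_nuT.TW.locMap_injective (e.symm : F →+* K) (Wt F d))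

/-- **The chain.** -/
theorem chain3 (H : ChainHyp3) {F : Type} [Field F] [NumberField F] [Algebra K F]
    {A : List (𝓞 K)} (h : MCT F A) : ∀ d : 𝓞 K, d ≠ 0 → (∀ b ∈ A, LConcl (Wt K (b * d)) ∧
      Finite (Wt K (b * d)).toAffine.Point) → LConcl (Wt F d) ∧ Finite (Wt F d).toAffine.Point := by
  induction h with
  | base F hb =>
    intro d hd hA
    have h1 := hA 1 (List.mem_singleton_self 1)
    rw [one_mul] at h1
    exact ⟨H.base F hb d hd h1.1, finite_base3 hb d h1.2⟩
  | step F F' A a x hx hn hgen h ih =>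
    intro d hd hA
    have ha : a ≠ 0 := by
      rintro rfl
      apply hn
      refine ⟨0, ?_⟩
      have h2 : x ^ 3 = 0 := by
        rw [hx]
        simp
      rw [map_zero, (pow_eq_zero_iff three_ne_zero).1 h2]
    obtain ⟨h1, h2⟩ := ih d hd fun b hb => hA b (List.mem_append_left _ hb)
    obtain ⟨h3, h4⟩ := ih (a * d) (mul_ne_zero ha hd) fun b hb => by
      have h5 := hA (a * b) (List.mem_append_right _ (List.mem_append_left _
        (List.mem_map_of_mem hb)))
      rw [show a * b * d = b * (a * d) by ring] at h5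
      exact h5
    obtain ⟨h5, h6⟩ := ih (a ^ 2 * d) (mul_ne_zero (pow_ne_zero 2 ha) hd) fun b hb => by
      have h5 := hA (a ^ 2 * b) (List.mem_append_right _ (List.mem_append_right _
        (List.mem_map_of_mem hb)))
      rw [show a ^ 2 * b * d = b * (a ^ 2 * d) by ring] at h5
      exact h5
    refine ⟨H.step F F' A a x hx hn hgen h d hd h1 h3 h5, ?_⟩
    have hw : IsPrimitiveRoot (algebraMap K F om) 3 :=
      om_spec.map_of_injective (algebraMap K F).injective
    have h7 := finite_step3 hw (a := algebraMap K F (a : K)) (x := x)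
      (by rw [hx, ← IsScalarTower.algebraMap_apply K F F']) hn hgen (algebraMap K F (d : K)) h2
      (by
        have e : Wt F (a * d) = ⟨0, 0, algebraMap K F (a : K) * algebraMap K F (d : K), 0, 0⟩ := by
          rw [← map_mul]
          rfl
        rw [← e]
        exact h4)
      (by
        have e : Wt F (a ^ 2 * d) = ⟨0, 0, algebraMap K F (a : K) ^ 2 * algebraMap K F (d : K),
            0, 0⟩ := by
          rw [← map_pow, ← map_mul]
          rfl
        rw [← e]
        exact h6)
    rw [← IsScalarTower.algebraMap_apply K F F'] at h7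
    exact h7

end Pool.Agent.Lib.MP_1a91b9_ntN
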