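import Pool.Agent.Lib.MP_1a91b9_ntN.F.F3c
import Pool.Agent.Lib.MP_1a91b9_ntN.F.Cd3
import Pool.Agent.Lib.MP_1a91b9_ntN.F.Chain3

/-!
# MC: the hypotheses of the chain
-/

set_option autoImplicit false

namespace Pool.Agent.Lib.MP_1a91b9_ntN

open NumberField IsDedekindDomain WeierstrassCurve
  Pool.Agent.Lib.MP_1a91b9_nt
open Pool.Agent.Lib.MP_1a91b9_nuX.LG (LConcl)

theorem six3 : Six := ⟨cdtr_eq3, cdnm_eq3, cdA_eq3, cdB_eq3⟩

/-- the value of `3` at the places above `3` of a multicubic extension is twice an odd number -/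
theorem MCT.oddT {F : Type} [Field F] [NumberField F] [Algebra K3 F] {A : List (𝓞 K3)}
    (h : MCT F A) : OddT F := by
  induction h with
  | base F hb => exact oddT_bij hb six3.oddT
  | step F F' A a x hx hn hgen h ih =>
    exact six3.oddT_step (by rw [hx, IsScalarTower.algebraMap_apply K3 F F']) hn hgen ih

theorem Wt_eq (F : Type*) [Field F] [Algebra K3 F] (d : 𝓞 K3) :
    Wt F d = Wu F (algebraMap K3 F (d : K3)) := rfl

theorem am_ne3 {F : Type*} [Field F] [Algebra K3 F] {d : 𝓞 K3} (hd : d ≠ 0) :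
    algebraMap K3 F (d : K3) ≠ 0 := by
  rw [Ne, map_eq_zero]
  intro h
  exact hd (RingOfIntegers.ext h)

/-- **The hypotheses of the chain.** -/
theorem chainHyp3 : ChainHyp3 := by
  refine ⟨?_, ?_⟩
  · intro F _ _ _ hb d hd h
    have h1 : LConcl (Wu K3 (d : K3)) := h
    have hd' : (d : K3) ≠ 0 := fun h0 => hd (RingOfIntegers.ext h0)
    exact six3.bij hb hd' h1
  · intro F F' _ _ _ _ _ _ _ _ A a x hx hn hgen hM d hd g1 g2 g3
    have hx' : x ^ 3 = algebraMap F F' (algebraMap K3 F (a : K3)) := by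
      rw [hx, ← IsScalarTower.algebraMap_apply K3 F F']
    have e1 : Wt F (a * d) = Wu F (algebraMap K3 F (a : K3) * algebraMap K3 F (d : K3)) := by
      rw [← map_mul]
      rfl
    have e2 : Wt F (a ^ 2 * d) =
        Wu F (algebraMap K3 F (a : K3) ^ 2 * algebraMap K3 F (d : K3)) := by
      rw [← map_pow, ← map_mul]
      rfl
    have e3 : Wt F' d = Wu F' (algebraMap F F' (algebraMap K3 F (d : K3))) := by
      rw [Wt_eq, ← IsScalarTower.algebraMap_apply K3 F F']
    rw [e1] at g2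
    rw [e2] at g3
    rw [e3]
    exact six3.step hx' hn hgen (am_ne3 hd) hM.oddT g1 g2 g3

end Pool.Agent.Lib.MP_1a91b9_ntN
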