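import Pool.Agent.Lib.MP_1a91b9_ntH.C.Hyp

/-!
# MC, part F, file Cls: the multicubic extensions of `ℚ(√-3)`

`MCT F A` : `F` is obtained from `K = ℚ(√-3)` by adjoining successively cube roots of elements of
`𝓞 K`; the list `A` consists of the products of the powers (exponents `0, 1, 2`) of these elements.
`MCT.exists_of` : every finite extension generated by cube roots of elements of `K` is of this kind;
`MCT.ok` : the length of `A` is the degree, the elements of `A` are not zero, they are cubes in `F`
and the quotients of two of them are not cubes in `K`.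
-/

set_option autoImplicit false

namespace Pool.Agent.Lib.MP_1a91b9_ntN

open NumberField Pool.Agent.Lib.MP_1a91b9_ntT
open Pool.Agent.Lib.MP_1a91b9_ntH (om_quad)

noncomputable section

/-- The list of `A`, `a A`, `a² A`. -/
def trp (a : 𝓞 K) (A : List (𝓞 K)) : List (𝓞 K) :=
  A ++ (A.map (a * ·) ++ A.map (a ^ 2 * ·))

theorem mem_trp {a b : 𝓞 K} {A : List (𝓞 K)} (h : b ∈ trp a A) :
    ∃ c ∈ A, b = c ∨ b = a * c ∨ b = a ^ 2 * c := by
  rcases List.mem_append.1 h with h1 | h1
  · exact ⟨b, h1, Or.inl rfl⟩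
  · rcases List.mem_append.1 h1 with h2 | h2
    · obtain ⟨c, hc, rfl⟩ := List.mem_map.1 h2
      exact ⟨c, hc, Or.inr (Or.inl rfl)⟩
    · obtain ⟨c, hc, rfl⟩ := List.mem_map.1 h2
      exact ⟨c, hc, Or.inr (Or.inr rfl)⟩

/-- Towers of cubic extensions above `ℚ(√-3)` generated by cube roots of elements of its ring of
integers. -/
inductive MCT : ∀ (F : Type) [Field F] [NumberField F] [Algebra K F], List (𝓞 K) → Prop
  | base (F : Type) [Field F] [NumberField F] [Algebra K F]
      (h : Function.Bijective (algebraMap K F)) : MCT F [1]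
  | step (F F' : Type) [Field F] [NumberField F] [Algebra K F] [Field F'] [NumberField F']
      [Algebra K F'] [Algebra F F'] [IsScalarTower K F F'] (A : List (𝓞 K)) (a : 𝓞 K)
      (x : F') (hx : x ^ 3 = algebraMap K F' a) (hn : ¬ ∃ y : F, algebraMap F F' y = x)
      (hgen : ∀ z : F', ∃ b c d : F, z = algebraMap F F' b + algebraMap F F' c * x +
        algebraMap F F' d * x ^ 2)
      (h : MCT F A) : MCT F' (trp a A)

/-- The class does not depend on the field up to isomorphism. -/
theorem MCT.congr {F : Type} [Field F] [NumberField F] [Algebra K F] {A : List (𝓞 K)}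
    (h : MCT F A) {F' : Type} [Field F'] [NumberField F'] [Algebra K F'] (e : F ≃ₐ[K] F') :
    MCT F' A := by
  cases h with
  | base _ hb =>
    refine MCT.base F' ?_
    have h1 : (algebraMap K F' : K → F') = e ∘ algebraMap K F :=
      funext fun y => (e.commutes y).symm
    rw [h1]
    exact e.bijective.comp hb
  | step F₀ _ A₀ a x hx hn hgen h0 =>
    let _ : Algebra F₀ F' := ((e : F →+* F').comp (algebraMap F₀ F)).toAlgebra
    have hal : ∀ y : F₀, algebraMap F₀ F' y = e (algebraMap F₀ F y) := fun _ => rfl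
    have : IsScalarTower K F₀ F' := IsScalarTower.of_algebraMap_eq fun y => by
      rw [hal, ← IsScalarTower.algebraMap_apply, e.commutes]
    refine MCT.step F₀ F' A₀ a (e x) ?_ ?_ ?_ h0
    · rw [← map_pow, hx, e.commutes]
    · rintro ⟨y, hy⟩
      exact hn ⟨y, e.injective hy⟩
    · intro z
      obtain ⟨b, c, d, hbc⟩ := hgen (e.symm z)
      refine ⟨b, c, d, ?_⟩
      rw [hal, hal, hal, ← map_mul, ← map_pow, ← map_mul, ← map_add, ← map_add, ← hbc,
        e.apply_symm_apply]

/-- The properties of the list `A`. -/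
structure MCok (F : Type) [Field F] [Algebra K F] (A : List (𝓞 K)) : Prop where
  len : A.length = Module.finrank K F
  ne : ∀ a ∈ A, a ≠ 0
  cu : ∀ a ∈ A, ∃ y : F, y ^ 3 = algebraMap K F a
  pw : A.Pairwise fun a b : 𝓞 K => ¬ ∃ y : K, y ^ 3 * b = (a : K)

/-- the cube roots of a cube -/
theorem cube_eq {F : Type*} [Field F] [Algebra K F] {x y : F} (h : x ^ 3 = y ^ 3) :
    ∃ c : K, x = algebraMap K F c * y := by
  have h2 : algebraMap K F om ^ 2 + algebraMap K F om + 1 = 0 := by
    rw [← map_pow, ← map_add, ← map_one (algebraMap K F), ← map_add, om_quad, map_zero]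
  have h3 : (x - y) * ((x - algebraMap K F om * y) * (x - algebraMap K F (om ^ 2) * y)) = 0 := by
    rw [map_pow]
    linear_combination h + (x - y) * ((algebraMap K F om - 1) * y ^ 2 - x * y) * h2
  rcases mul_eq_zero.1 h3 with h4 | h4
  · exact ⟨1, by rw [map_one, one_mul]; exact sub_eq_zero.1 h4⟩
  · rcases mul_eq_zero.1 h4 with h5 | h5
    · exact ⟨om, sub_eq_zero.1 h5⟩
    · exact ⟨om ^ 2, sub_eq_zero.1 h5⟩

/-- a cube root of an element of `N` which is not in `N` is not of degree `2` -/
theorem cubic_indep {N N' : Type*} [Field N] [Field N'] [Algebra N N'] [Algebra K N] {x : N'}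
    {a : N} (hx : x ^ 3 = algebraMap N N' a) (hn : ¬ ∃ y : N, algebraMap N N' y = x)
    {b c d : N} (h : algebraMap N N' b + algebraMap N N' c * x + algebraMap N N' d * x ^ 2 = 0) :
    b = 0 ∧ c = 0 ∧ d = 0 := by
  -- the linear case
  have lin : ∀ b c : N, algebraMap N N' b + algebraMap N N' c * x = 0 → b = 0 ∧ c = 0 := by
    intro b c h
    by_cases hc : c = 0
    · rw [hc, map_zero, zero_mul, add_zero] at h
      exact ⟨(map_eq_zero _).mp h, hc⟩
    · exfalso
      apply hn
      have hc' : algebraMap N N' c ≠ 0 := fun h0 => hc ((map_eq_zero _).mp h0)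
      refine ⟨-b / c, ?_⟩
      rw [map_div₀, map_neg, div_eq_iff hc']
      linear_combination -h
  by_cases hd : d = 0
  · rw [hd, map_zero, zero_mul, add_zero] at h
    obtain ⟨h1, h2⟩ := lin b c h
    exact ⟨h1, h2, hd⟩
  · exfalso
    have hd' : algebraMap N N' d ≠ 0 := fun h0 => hd ((map_eq_zero _).mp h0)
    obtain ⟨p, hp⟩ : ∃ p : N, p = -c / d := ⟨_, rfl⟩
    obtain ⟨q, hq⟩ : ∃ q : N, q = -b / d := ⟨_, rfl⟩
    have hp' : algebraMap N N' p * algebraMap N N' d = -algebraMap N N' c := by
      rw [← map_mul, ← map_neg, hp, div_mul_cancel₀ _ hd]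
    have hq' : algebraMap N N' q * algebraMap N N' d = -algebraMap N N' b := by
      rw [← map_mul, ← map_neg, hq, div_mul_cancel₀ _ hd]
    have h2 : x ^ 2 = algebraMap N N' p * x + algebraMap N N' q := by
      apply mul_right_cancel₀ hd'
      linear_combination h - x * hp' - hq'
    have h3 : algebraMap N N' (p * q - a) + algebraMap N N' (p ^ 2 + q) * x = 0 := by
      simp only [map_sub, map_add, map_mul, map_pow]
      linear_combination -(x + algebraMap N N' p) * h2 + hx
    obtain ⟨h4, h5⟩ := lin _ _ h3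
    have hω : (algebraMap K N om) ^ 2 + algebraMap K N om + 1 = 0 := by
      rw [← map_pow, ← map_add, ← map_one (algebraMap K N), ← map_add, om_quad, map_zero]
    have hω' := congrArg (algebraMap N N') hω
    simp only [map_add, map_pow, map_one, map_zero] at hω'
    have h6 : algebraMap N N' q = -algebraMap N N' p ^ 2 := by
      have h7 : q = -p ^ 2 := by linear_combination h5
      rw [h7, map_neg, map_pow]
    have h7 : (x + algebraMap N N' (algebraMap K N om * p)) *
        (x + algebraMap N N' ((algebraMap K N om) ^ 2 * p)) = 0 := by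
      simp only [map_mul, map_pow]
      rw [h6] at h2
      linear_combination h2 + (algebraMap N N' p * x +
        (algebraMap N N' (algebraMap K N om) - 1) * algebraMap N N' p ^ 2) * hω'
    rcases mul_eq_zero.1 h7 with h8 | h8
    · exact hn ⟨-(algebraMap K N om * p), by rw [map_neg]; linear_combination -h8⟩
    · exact hn ⟨-((algebraMap K N om) ^ 2 * p), by rw [map_neg]; linear_combination -h8⟩

theorem finrank_three {N N' : Type*} [Field N] [Field N'] [Algebra N N'] [Algebra K N] {x : N'}
    {a : N} (hx : x ^ 3 = algebraMap N N' a)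
    (hn : ¬ ∃ y : N, algebraMap N N' y = x)
    (hgen : ∀ z : N', ∃ b c d : N, z = algebraMap N N' b + algebraMap N N' c * x +
      algebraMap N N' d * x ^ 2) :
    Module.finrank N N' = 3 := by
  have hli : LinearIndependent N ![(1 : N'), x, x ^ 2] := by
    rw [Fintype.linearIndependent_iff]
    intro g hg
    rw [Fin.sum_univ_three] at hg
    simp only [Matrix.cons_val_zero, Matrix.cons_val_one, Matrix.cons_val, Algebra.smul_def,
      mul_one] at hg
    obtain ⟨h0, h1, h2⟩ := cubic_indep hx hn hg
    intro i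
    fin_cases i
    · exact h0
    · exact h1
    · exact h2
  have hsp : ⊤ ≤ Submodule.span N (Set.range ![(1 : N'), x, x ^ 2]) := by
    intro z _
    obtain ⟨b, c, d, hz⟩ := hgen z
    rw [Submodule.mem_span_range_iff_exists_fun]
    refine ⟨![b, c, d], ?_⟩
    rw [Fin.sum_univ_three, hz]
    simp only [Matrix.cons_val_zero, Matrix.cons_val_one, Matrix.cons_val, Algebra.smul_def,
      mul_one]
  have hb := Module.finrank_eq_card_basis (Module.Basis.mk hli hsp)
  rw [hb, Fintype.card_fin]

theorem MCT.ok {F : Type} [Field F] [NumberField F] [Algebra K F] {A : List (𝓞 K)}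
    (h : MCT F A) : MCok F A := by
  induction h with
  | base F hb =>
    refine ⟨?_, ?_, ?_, List.pairwise_singleton _ _⟩
    · have e : K ≃ₗ[K] F := LinearEquiv.ofBijective (Algebra.linearMap K F) hb
      rw [List.length_singleton, ← e.finrank_eq, Module.finrank_self]
    · intro a ha
      rw [List.mem_singleton] at ha
      subst ha
      exact one_ne_zero
    · intro a ha
      rw [List.mem_singleton] at ha
      subst ha
      exact ⟨1, by rw [one_pow]; exact (map_one (algebraMap K F)).symm⟩
  | step F F' A a x hx hn hgen h0 ih =>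
    have ha : a ≠ 0 := by
      rintro rfl
      have h1 : x ^ 3 = 0 := hx.trans (map_zero (algebraMap K F'))
      exact hn ⟨0, by rw [map_zero, (pow_eq_zero_iff three_ne_zero).1 h1]⟩
    have haK : (a : K) ≠ 0 := by exact_mod_cast ha
    have hal : ∀ y : K, algebraMap K F' y = algebraMap F F' (algebraMap K F y) :=
      fun y => IsScalarTower.algebraMap_apply K F F' y
    have hx0 : x ≠ 0 := by
      rintro rfl
      exact hn ⟨0, map_zero _⟩
    -- `x` is not in `F`
    have hxF : ∀ (y : F), algebraMap F F' y ^ 3 ≠ x ^ 3 := by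
      intro y hy
      obtain ⟨c, hc⟩ := cube_eq (F := F') hy.symm
      exact hn ⟨algebraMap K F c * y, by rw [map_mul, ← hal, hc]⟩
    have hxF2 : ∀ (y : F), algebraMap F F' y ^ 3 ≠ (x ^ 2) ^ 3 := by
      intro y hy
      obtain ⟨c, hc⟩ := cube_eq (F := F') hy.symm
      have h2 : x ^ 2 = algebraMap F F' (algebraMap K F c * y) := by rw [map_mul, ← hal, hc]
      refine hn ⟨algebraMap K F a / (algebraMap K F c * y), ?_⟩
      rw [map_div₀, ← h2, ← hal, ← hx, div_eq_iff (pow_ne_zero 2 hx0)]
      ring
    -- two elements of `A` times a power of `a`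
    have hcu : ∀ b ∈ A, ∀ c ∈ A, ∀ n : ℕ, (n = 1 ∨ n = 2) →
        ¬ ∃ y : K, y ^ 3 * (a : K) ^ n * c = b := by
      rintro b hb c hc n hnn ⟨y, hy⟩
      obtain ⟨β, hβ⟩ := ih.cu b hb
      obtain ⟨γ, hγ⟩ := ih.cu c hc
      have hbK : (b : K) ≠ 0 := by exact_mod_cast ih.ne b hb
      have hcK : (c : K) ≠ 0 := by exact_mod_cast ih.ne c hc
      have hy0 : y ≠ 0 := by
        rintro rfl
        apply hbK
        rw [← hy]
        ring
      have hγ0 : γ ≠ 0 := by
        rintro rfl
        rw [zero_pow three_ne_zero] at hγ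
        exact hcK ((map_eq_zero _).1 hγ.symm)
      have h1 : (algebraMap F F' (β / (algebraMap K F y * γ))) ^ 3 = (x ^ n) ^ 3 := by
        have e1 : (x ^ n) ^ 3 = (x ^ 3) ^ n := by
          rw [← pow_mul, ← pow_mul, mul_comm]
        rw [e1, hx, hal, ← map_pow, ← map_pow]
        congr 1
        have hy' : algebraMap K F y ≠ 0 := (map_ne_zero _).2 hy0
        rw [div_pow, mul_pow, hβ, hγ, div_eq_iff (mul_ne_zero (pow_ne_zero 3 hy')
          ((map_ne_zero _).2 hcK)), ← hy]
        simp only [map_mul, map_pow]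
        ring
      rcases hnn with rfl | rfl
      · rw [pow_one] at h1
        exact hxF _ h1
      · exact hxF2 _ h1
    refine ⟨?_, ?_, ?_, ?_⟩
    · have h3 := finrank_three (N := F) (N' := F') (a := algebraMap K F a)
        (by rw [hx, hal]) hn hgen
      rw [trp, List.length_append, List.length_append, List.length_map, List.length_map, ih.len,
        ← Module.finrank_mul_finrank K F F', h3]
      ring
    · intro b hb
      obtain ⟨c, hc, rfl | rfl | rfl⟩ := mem_trp hb
      · exact ih.ne b hc
      · exact mul_ne_zero ha (ih.ne c hc)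
      · exact mul_ne_zero (pow_ne_zero 2 ha) (ih.ne c hc)
    · intro b hb
      obtain ⟨c, hc, h⟩ := mem_trp hb
      obtain ⟨y, hy⟩ := ih.cu c hc
      rcases h with rfl | rfl | rfl
      · exact ⟨algebraMap F F' y, by rw [← map_pow, hy, hal]⟩
      · refine ⟨x * algebraMap F F' y, ?_⟩
        rw [mul_pow, hx, ← map_pow, hy, ← hal, ← map_mul]
        rfl
      · refine ⟨x ^ 2 * algebraMap F F' y, ?_⟩
        have e1 : (x ^ 2 * algebraMap F F' y) ^ 3 = (x ^ 3) ^ 2 * algebraMap F F' (y ^ 3) := by
          rw [map_pow]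
          ring
        rw [e1, hx, hy, ← hal, ← map_pow, ← map_mul]
        congr 1
    · rw [trp, List.pairwise_append, List.pairwise_append]
      refine ⟨ih.pw, ⟨?_, ?_, ?_⟩, ?_⟩
      · rw [List.pairwise_map]
        refine ih.pw.imp ?_
        rintro b c h1 ⟨y, hy⟩
        apply h1
        refine ⟨y, ?_⟩
        push_cast at hy
        apply mul_left_cancel₀ haK
        linear_combination hy
      · rw [List.pairwise_map]
        refine ih.pw.imp ?_
        rintro b c h1 ⟨y, hy⟩
        apply h1
        refine ⟨y, ?_⟩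
        push_cast at hy
        apply mul_left_cancel₀ (pow_ne_zero 2 haK)
        linear_combination hy
      · rintro b' hb' c' hc' ⟨y, hy⟩
        obtain ⟨b, hb, rfl⟩ := List.mem_map.1 hb'
        obtain ⟨c, hc, rfl⟩ := List.mem_map.1 hc'
        push_cast at hy
        refine hcu b hb c hc 1 (Or.inl rfl) ⟨y, ?_⟩
        apply mul_left_cancel₀ haK
        linear_combination hy
      · rintro b hb c' hc' ⟨y, hy⟩
        rcases List.mem_append.1 hc' with h1 | h1
        · obtain ⟨c, hc, rfl⟩ := List.mem_map.1 h1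
          push_cast at hy
          exact hcu b hb c hc 1 (Or.inl rfl) ⟨y, by linear_combination hy⟩
        · obtain ⟨c, hc, rfl⟩ := List.mem_map.1 h1
          push_cast at hy
          exact hcu b hb c hc 2 (Or.inr rfl) ⟨y, by linear_combination hy⟩

/-- An element of `𝓞 K` and a cube root of it. -/
theorem exists_int {F : Type} [Field F] [Algebra K F] {x : F} {c : K}
    (hx : x ^ 3 = algebraMap K F c) : ∃ (b : 𝓞 K) (a : 𝓞 K), b ≠ 0 ∧
      (algebraMap K F b * x) ^ 3 = algebraMap K F a := by
  obtain ⟨⟨b, hb⟩, a, ha⟩ := IsLocalization.exists_integer_multiple (nonZeroDivisors (𝓞 K)) c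
  refine ⟨b, b ^ 2 * a, nonZeroDivisors.ne_zero hb, ?_⟩
  have h1 : (a : K) = (b : K) * c := by
    rw [Algebra.smul_def] at ha
    exact ha
  have e1 : ((b ^ 2 * a : 𝓞 K) : K) = b ^ 2 * a := by push_cast; rfl
  rw [mul_pow, hx, e1, h1, ← map_pow, ← map_mul]
  congr 1
  ring

/-- One more cube root. -/
theorem step_inter {F : Type} [Field F] [NumberField F] [Algebra K F]
    {L : IntermediateField K F} {A : List (𝓞 K)} (h : MCT L A) {x : F} {a : 𝓞 K}
    (hx : x ^ 3 = algebraMap K F a) (hxL : x ∉ L) :
    ∃ L' : IntermediateField K F, L ≤ L' ∧ x ∈ L' ∧ MCT L' (trp a A) := by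
  obtain ⟨M, hM⟩ : ∃ M : IntermediateField L F, M = IntermediateField.adjoin L {x} := ⟨_, rfl⟩
  obtain ⟨L', hL'⟩ : ∃ L' : IntermediateField K F, L' = M.restrictScalars K := ⟨_, rfl⟩
  have hmem : ∀ z : F, z ∈ L' ↔ z ∈ M := fun z => by
    rw [hL', IntermediateField.mem_restrictScalars]
  have hLL : L ≤ L' := fun z hz => by
    rw [hmem]
    exact M.algebraMap_mem ⟨z, hz⟩
  have hxM : x ∈ M := by
    rw [hM]
    exact IntermediateField.subset_adjoin L {x} rfl
  refine ⟨L', hLL, (hmem x).2 hxM, ?_⟩
  let _ : Algebra L L' := (IntermediateField.inclusion hLL).toRingHom.toAlgebra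
  have hal : ∀ y : L, ((algebraMap L L' y : L') : F) = y := fun _ => rfl
  have hst : IsScalarTower K L L' := IsScalarTower.of_algebraMap_eq fun y => rfl
  refine MCT.step L L' A a ⟨x, (hmem x).2 hxM⟩ (Subtype.ext hx) ?_ ?_ h
  · rintro ⟨y, hy⟩
    have h1 := congrArg (fun z : L' => (z : F)) hy
    simp only [hal] at h1
    exact hxL (h1 ▸ y.2)
  · have hint : IsAlgebraic L x := Algebra.IsAlgebraic.isAlgebraic x
    have key : ∀ z ∈ M, ∃ b c d : L, z = b + c * x + d * x ^ 2 := by
      intro z hz
      have hz1 : z ∈ Algebra.adjoin L {x} := by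
        rw [← IntermediateField.adjoin_simple_toSubalgebra_of_isAlgebraic hint, ← hM]
        exact hz
      refine Algebra.adjoin_induction (p := fun z _ => ∃ b c d : L, z = b + c * x + d * x ^ 2)
        ?_ ?_ ?_ ?_ hz1
      · rintro y hy
        rw [Set.mem_singleton_iff] at hy
        exact ⟨0, 1, 0, by rw [hy]; simp⟩
      · intro y
        exact ⟨y, 0, 0, by simp⟩
      · rintro y z _ _ ⟨b, c, d, rfl⟩ ⟨b', c', d', rfl⟩
        exact ⟨b + b', c + c', d + d', by push_cast; ring⟩
      · rintro y z _ _ ⟨b, c, d, rfl⟩ ⟨b', c', d', rfl⟩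
        refine ⟨b * b' + (c * d' + d * c') * algebraMap K L a,
          b * c' + c * b' + d * d' * algebraMap K L a, b * d' + c * c' + d * b', ?_⟩
        push_cast
        linear_combination ((c : F) * d' + d * c' + d * d' * x) * hx
    intro z
    obtain ⟨b, c, d, hbc⟩ := key z ((hmem z).1 z.2)
    exact ⟨b, c, d, Subtype.ext hbc⟩

/-- **Every finite extension generated by cube roots is in the class.** -/
theorem MCT.exists_of {F : Type} [Field F] [NumberField F] [Algebra K F]
    (hF : IntermediateField.adjoin K {x : F | ∃ c : K, x ^ 3 = algebraMap K F c} = ⊤) :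
    ∃ A : List (𝓞 K), MCT F A := by
  obtain ⟨P, hP⟩ : ∃ P : IntermediateField K F → Prop, P = fun L : IntermediateField K F => ∃ A, MCT L A := ⟨_, rfl⟩
  have hbot : P ⊥ := by
    rw [hP]
    refine ⟨[1], MCT.base _ ?_⟩
    refine ⟨(algebraMap K (⊥ : IntermediateField K F)).injective, fun z => ?_⟩
    obtain ⟨y, hy⟩ := IntermediateField.mem_bot.1 z.2
    exact ⟨y, Subtype.ext hy⟩
  obtain ⟨L, hL, hmax⟩ : ∃ L : IntermediateField K F, P L ∧ ∀ L' : IntermediateField K F,
      P L' → Module.finrank K L' ≤ Module.finrank K L := by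
    by_contra hcon
    push Not at hcon
    have h1 : ∀ n : ℕ, ∃ L : IntermediateField K F, P L ∧ n ≤ Module.finrank K L := by
      intro n
      induction n with
      | zero => exact ⟨⊥, hbot, Nat.zero_le _⟩
      | succ n ih =>
        obtain ⟨L, h2, h3⟩ := ih
        obtain ⟨L', h4, h5⟩ := hcon L h2
        exact ⟨L', h4, by omega⟩
    obtain ⟨L, _, h3⟩ := h1 (Module.finrank K F + 1)
    have h4 : Module.finrank K L ≤ Module.finrank K F := Submodule.finrank_le
      (Subalgebra.toSubmodule L.toSubalgebra)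
    omega
  have htop : L = ⊤ := by
    rw [← top_le_iff, ← hF, IntermediateField.adjoin_le_iff]
    rintro x ⟨c, hx⟩
    by_contra hxL
    obtain ⟨b, a, hb, hba⟩ := exists_int hx
    have hbK : (algebraMap K F (b : K)) ≠ 0 := (map_ne_zero _).2 (by exact_mod_cast hb)
    have hbL : algebraMap K F (b : K) ∈ L := L.algebraMap_mem _
    have hxL' : algebraMap K F b * x ∉ L := by
      intro h1
      apply hxL
      have h2 := L.mul_mem (L.inv_mem hbL) h1
      rwa [inv_mul_cancel_left₀ hbK] at h2
    rw [hP] at hL hmax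
    obtain ⟨A, hA⟩ := hL
    obtain ⟨L', h1, h2, h3⟩ := step_inter hA hba hxL'
    have h4 := hmax L' ⟨_, h3⟩
    have h6 := h3.ok.len
    have h7 := hA.ok.len
    rw [trp, List.length_append, List.length_append, List.length_map, List.length_map, h7] at h6
    have h8 : 0 < Module.finrank K L := Module.finrank_pos
    omega
  rw [hP] at hL
  obtain ⟨A, hA⟩ := hL
  subst htop
  exact ⟨A, hA.congr IntermediateField.topEquiv⟩

end

end Pool.Agent.Lib.MP_1a91b9_ntN
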