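import Pool.Agent.Lib.MP_1a91b9_ntN.F.Loc3
import Pool.Agent.Lib.MP_1a91b9_nuX.GL.EllA

/-!
# Isomorphic fields, the field `K` and the step
-/

set_option autoImplicit false

namespace Pool.Agent.Lib.MP_1a91b9_ntN

open NumberField IsDedekindDomain WeierstrassCurve
  Pool.Agent.Lib.MP_1a91b9_nt Pool.Agent.Lib.MP_1a91b9_nuT
open Pool.Agent.Lib.MP_1a91b9_nuX.DB Pool.Agent.Lib.MP_1a91b9_nuX.GL
  Pool.Agent.Lib.MP_1a91b9_nuX.PG Pool.Agent.Lib.MP_1a91b9_nuX.PH
open Pool.Agent.Lib.MP_1a91b9_nuX Pool.Agent.Lib.MP_1a91b9_nuX.LG Pool.Agent.Lib.MP_1a91b9_ntM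

universe u

/-- descent of a good model along a Galois extension at an unramified place -/
theorem desc_gal3 {N L : Type u} [Field N] [NumberField N] [Field L] [NumberField L] [Algebra N L]
    [IsGalois N L] {w : HeightOneSpectrum (𝓞 L)}
    (he : w.asIdeal.ramificationIdx (𝓞 N) = 1) {W : WeierstrassCurve N}
    (h : Gd (W.map (algebraMap N L)) w) : Gd W (w.under (𝓞 N)) := by
  obtain ⟨C, hC⟩ := h
  have hp : w.asIdeal.IsPrime := w.isPrime
  have hfin1 : Finite (𝓞 N ⧸ w.asIdeal.under (𝓞 N)) :=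
    Ideal.finiteQuotientOfFreeOfNeBot _ (w.under (𝓞 N)).ne_bot
  have h1 := Ideal.card_inertia_eq_ramificationIdxIn (G := Gal(L/N)) (w.asIdeal.under (𝓞 N))
    w.asIdeal
  rw [Ideal.ramificationIdxIn_eq_ramificationIdx _ w.asIdeal Gal(L/N), he] at h1
  have h3 : w.asIdeal.inertia Gal(L/N) = ⊥ := Subgroup.eq_bot_of_card_eq _ h1
  refine GM.desc_good (u := (C.u : L)) (r := C.r) (s := C.s) (t := C.t) C.u.ne_zero ?_ ?_
  · intro σ hσ
    have h4 : σ ∈ w.asIdeal.inertia Gal(L/N) := hσ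
    rw [h3, Subgroup.mem_bot] at h4
    rw [h4]
    exact ⟨rfl, rfl, rfl, rfl⟩
  · have e1 : (⟨Units.mk0 (C.u : L) C.u.ne_zero, C.r, C.s, C.t⟩ : VariableChange L) = C := by
      ext
      · rfl
      · rfl
      · rfl
      · rfl
    rw [e1]
    exact hC

/-- the places of an isomorphic field -/
theorem place_one3 {N F : Type u} [Field N] [NumberField N] [Field F] [NumberField F]
    [Algebra N F] [IsGalois N F] (h1 : Module.finrank N F = 1) (v : HeightOneSpectrum (𝓞 N)) :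
    ∃ w : HeightOneSpectrum (𝓞 F),
      (∀ w' : HeightOneSpectrum (𝓞 F), w'.under (𝓞 N) = v ↔ w' = w) ∧
      w.asIdeal.inertiaDeg (𝓞 N) = 1 ∧ w.asIdeal.ramificationIdx (𝓞 N) = 1 := by
  have hvp : v.asIdeal.IsPrime := v.isPrime
  have hvm : v.asIdeal.IsMaximal := v.isMaximal
  have hfund := Ideal.ncard_primesOver_mul_ramificationIdxIn_mul_inertiaDegIn v.asIdeal (𝓞 F)
    Gal(F/N)
  rw [IsGalois.card_aut_eq_finrank, h1] at hfund
  have hg := Nat.eq_one_of_mul_eq_one_right hfund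
  have hef := Nat.eq_one_of_mul_eq_one_left hfund
  have he := Nat.eq_one_of_mul_eq_one_right hef
  have hf := Nat.eq_one_of_mul_eq_one_left hef
  obtain ⟨P, hP⟩ := Set.ncard_eq_one.1 hg
  have hPm : P ∈ v.asIdeal.primesOver (𝓞 F) := by
    rw [hP]
    exact Set.mem_singleton P
  obtain ⟨hP1, hP2⟩ := hPm
  have hne : P ≠ ⊥ := by
    rintro rfl
    have h2 := hP2.over
    rw [Ideal.under_bot] at h2
    exact v.ne_bot h2
  refine ⟨⟨P, hP1, hne⟩, fun w' => ?_, ?_, ?_⟩
  · constructor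
    · intro h
      apply HeightOneSpectrum.ext
      have h3 : w'.asIdeal ∈ v.asIdeal.primesOver (𝓞 F) :=
        ⟨w'.isPrime, ⟨(congrArg HeightOneSpectrum.asIdeal h).symm⟩⟩
      rw [hP] at h3
      exact h3
    · rintro rfl
      exact HeightOneSpectrum.ext hP2.over.symm
  · have i1 : P.IsPrime := hP1
    show P.inertiaDeg (𝓞 N) = 1
    rw [← hf]
    exact (Ideal.inertiaDegIn_eq_inertiaDeg v.asIdeal P Gal(F/N)).symm
  · have i1 : P.IsPrime := hP1
    show P.ramificationIdx (𝓞 N) = 1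
    rw [← he]
    exact (Ideal.ramificationIdxIn_eq_ramificationIdx v.asIdeal P Gal(F/N)).symm

/-- the property of the places above `3` in an isomorphic field -/
theorem oddT_bij {N F : Type u} [Field N] [NumberField N] [Field F] [NumberField F]
    [Algebra N F] (hb : Function.Bijective (algebraMap N F)) (h : OddT N) : OddT F := by
  have e : N ≃ₐ[N] F := AlgEquiv.ofBijective (Algebra.ofId N F) hb
  have hgal : IsGalois N F := IsGalois.of_algEquiv e
  have h1 : Module.finrank N F = 1 := by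
    rw [← e.toLinearEquiv.finrank_eq, Module.finrank_self]
  intro w hw
  obtain ⟨w₁, hw1, -, hw3⟩ := place_one3 h1 (w.under (𝓞 N))
  have h2 : w = w₁ := (hw1 w).1 rfl
  rw [← h2] at hw3
  have h3 : (3 : 𝓞 N) ∈ (w.under (𝓞 N)).asIdeal := by
    show algebraMap (𝓞 N) (𝓞 F) 3 ∈ w.asIdeal
    rw [map_ofNat]
    exact hw
  obtain ⟨n, hn1, hn2⟩ := h _ h3
  have h4 := log_base w (3 : N)
  rw [map_ofNat, hn2, hw3, Nat.cast_one, one_mul] at h4
  exact ⟨n, hn1, h4⟩

section
variable [CD]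

/-- **Isomorphic fields.** -/
theorem lconcl_bij3 (hE : EllK) (hA : CD.A = 0) (hB : CD.B = 16) {N F : Type u} [Field N]
    [NumberField N] [Field F] [NumberField F] [Algebra N F] [Algebra K N] [Algebra K F]
    [IsScalarTower K N F] (hb : Function.Bijective (algebraMap N F)) {δ : N} (hδ : δ ≠ 0)
    (h : LConcl (Wu N δ)) : LConcl (Wu F (algebraMap N F δ)) := by
  have e : N ≃ₐ[N] F := AlgEquiv.ofBijective (Algebra.ofId N F) hb
  have hgal : IsGalois N F := IsGalois.of_algEquiv e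
  have h1 : Module.finrank N F = 1 := by
    rw [← e.toLinearEquiv.finrank_eq, Module.finrank_self]
  have hδ' : algebraMap N F δ ≠ 0 := by
    rw [Ne, map_eq_zero]
    exact hδ
  refine lconcl_one (pdatP hE (fm_Wu hA hB hδ)) (pdatP hE (fm_Wu hA hB hδ')) (fun v => ?_) h
  obtain ⟨w, hw1, hw2, hw3⟩ := place_one3 h1 v
  have hw : w.under (𝓞 N) = v := (hw1 w).2 rfl
  refine ⟨w, hw1, hw2, ?_⟩
  rw [psP_prime, psP_prime, ← Wu_map]
  by_cases hg : Gd (Wu N δ) v
  · have hg' : Gd (Wu N δ) (w.under (𝓞 N)) := by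
      rw [hw]
      exact hg
    rw [hv_up hE (fm_Wu hA hB hδ) w hg', hw2, pow_one, hw]
  · rw [hv_bad hg, hv_bad]
    intro h2
    have h3 := desc_gal3 hw3 h2
    rw [hw] at h3
    exact hg h3

/-- the property of the place of `K` above `3` -/
theorem oddT_K (hta : ta ^ 2 - ta + 1 = 0) : OddT K := by
  intro v hv
  obtain ⟨s, hs⟩ : ∃ s : 𝓞 K, s = 1 - 2 * ta := ⟨_, rfl⟩
  have h1 : s ^ 2 = -3 := by
    rw [hs]
    linear_combination 4 * hta
  have hs0 : s ≠ 0 := by
    intro h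
    rw [h] at h1
    have h5 : (3 : 𝓞 K) = 0 := by linear_combination h1
    have h6 := congrArg (algebraMap (𝓞 K) K) h5
    rw [map_ofNat, map_zero] at h6
    exact (by norm_num : (3 : K) ≠ 0) h6
  have h2 : Ideal.absNorm (Ideal.span {s}) = 3 := by
    have h3 := norm_emb_sq s
    rw [← _root_.norm_pow, ← map_pow] at h3
    have h4 : ((s : 𝓞 K) : K) ^ 2 = -3 := by
      have h5 := congrArg (algebraMap (𝓞 K) K) h1
      rw [map_pow, map_neg, map_ofNat] at h5
      exact h5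
    rw [h4, map_neg, map_ofNat, norm_neg] at h3
    have h6 : ((3 : ℕ) : ℝ) = (Ideal.absNorm (Ideal.span {s}) : ℝ) := by
      rw [← h3]
      norm_num
    exact (Nat.cast_injective h6).symm
  have h3 : (Ideal.span {s}).IsPrime := by
    apply Ideal.isPrime_of_irreducible_absNorm
    rw [h2]
    exact Nat.prime_three
  have h4 : v.asIdeal = Ideal.span {s} := by
    have hmax : (Ideal.span {s}).IsMaximal := h3.isMaximal (by
      rw [Ne, Ideal.span_singleton_eq_bot]
      exact hs0)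
    refine (hmax.eq_of_le v.isPrime.ne_top ?_).symm
    rw [Ideal.span_singleton_le_iff_mem]
    refine v.isPrime.mem_of_pow_mem 2 ?_
    rw [h1]
    exact v.asIdeal.neg_mem hv
  have h5 : v.valuation K ((s : 𝓞 K) : K) = WithZero.exp (-1 : ℤ) := by
    have h6 := v.intValuation_singleton hs0 h4
    rw [← h6]
    exact v.valuation_of_algebraMap s
  have h6 : (3 : K) = -((s : 𝓞 K) : K) ^ 2 := by
    have h5 := congrArg (algebraMap (𝓞 K) K) h1
    rw [map_pow, map_neg, map_ofNat] at h5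
    change ((s : 𝓞 K) : K) ^ 2 = -3 at h5
    rw [h5, neg_neg]
  refine ⟨-1, by decide, ?_⟩
  rw [h6, Valuation.map_neg, map_pow, h5, WithZero.log_pow, WithZero.log_exp]
  norm_num

section
variable {F F' : Type u} [Field F] [NumberField F] [Field F'] [NumberField F'] [Algebra F F']
  [Algebra K F] [Algebra K F'] [IsScalarTower K F F'] {x : F'}

omit [CD] [NumberField F] [Algebra K F] [NumberField F'] [Algebra K F'] [IsScalarTower K F F'] in
theorem alpha_ne {α : F} (hx : x ^ 3 = algebraMap F F' α)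
    (hn : ¬ ∃ y : F, algebraMap F F' y = x) : α ≠ 0 := by
  rintro rfl
  rw [map_zero, pow_eq_zero_iff three_ne_zero] at hx
  exact hn ⟨0, by rw [hx, map_zero]⟩

omit [Algebra K F'] [IsScalarTower K F F'] in
/-- the property of the places above `3` in a cubic extension -/
theorem oddT_cub (hta : ta ^ 2 - ta + 1 = 0) {α : F} (hx : x ^ 3 = algebraMap F F' α)
    (hn : ¬ ∃ y : F, algebraMap F F' y = x)
    (hgen : ∀ z : F', ∃ b c d : F,
      z = algebraMap F F' b + algebraMap F F' c * x + algebraMap F F' d * x ^ 2) (o : OddT F) :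
    OddT F' := by
  obtain ⟨hL, hgal⟩ := cub_data hgen (root_F hta) hx hn
  exact oddT_step hL o

/-- **The step.** -/
theorem lconcl_step3 (hE : EllK) (hA : CD.A = 0) (hB : CD.B = 16) (hta : ta ^ 2 - ta + 1 = 0)
    {α δ : F} (hx : x ^ 3 = algebraMap F F' α) (hn : ¬ ∃ y : F, algebraMap F F' y = x)
    (hgen : ∀ z : F', ∃ b c d : F,
      z = algebraMap F F' b + algebraMap F F' c * x + algebraMap F F' d * x ^ 2)
    (hδ : δ ≠ 0) (o : OddT F) (g1 : LConcl (Wu F δ)) (g2 : LConcl (Wu F (α * δ)))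
    (g3 : LConcl (Wu F (α ^ 2 * δ))) : LConcl (Wu F' (algebraMap F F' δ)) := by
  have hα := alpha_ne hx hn
  have hδ' : algebraMap F F' δ ≠ 0 := by
    rw [Ne, map_eq_zero]
    exact hδ
  exact lconcl_cub (pdatP hE (fm_Wu hA hB hδ)) (pdatP hE (fm_Wu hA hB (mul_ne_zero hα hδ)))
    (pdatP hE (fm_Wu hA hB (mul_ne_zero (pow_ne_zero 2 hα) hδ))) (pdatP hE (fm_Wu hA hB hδ'))
    (locStep3 hE hA hB hta hgen hα hδ hx hn o) g1 g2 g3

end

/-- the curve `y² = x³ + 16` over the field `ℚ(√-3)` -/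
structure Six : Prop where
  tr : CD.tr = 1
  nm : CD.nm = 1
  A : CD.A = 0
  B : CD.B = 16

theorem Six.quad (h : Six) : ta ^ 2 - ta + 1 = (0 : 𝓞 K) := by
  have h1 : (ta : 𝓞 K) ^ 2 = ((CD.tr : ℤ) : 𝓞 K) * ta - ((CD.nm : ℤ) : 𝓞 K) := CD.quad
  rw [h.tr, h.nm, Int.cast_one, one_mul] at h1
  linear_combination h1

/-- the property of the place of `K` above `3` -/
theorem Six.oddT (h : Six) : OddT K := oddT_K h.quad

/-- **Isomorphic fields.** -/
theorem Six.bij (h : Six) {N F : Type u} [Field N] [NumberField N] [Field F] [NumberField F]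
    [Algebra N F] [Algebra K N] [Algebra K F] [IsScalarTower K N F]
    (hb : Function.Bijective (algebraMap N F)) {δ : N} (hδ : δ ≠ 0) (h1 : LConcl (Wu N δ)) :
    LConcl (Wu F (algebraMap N F δ)) := lconcl_bij3 (ellK_six h.tr h.nm) h.A h.B hb hδ h1

section
variable {F F' : Type u} [Field F] [NumberField F] [Field F'] [NumberField F'] [Algebra F F']
  [Algebra K F] {x : F'}

theorem Six.oddT_step (h : Six) {α : F} (hx : x ^ 3 = algebraMap F F' α)
    (hn : ¬ ∃ y : F, algebraMap F F' y = x)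
    (hgen : ∀ z : F', ∃ b c d : F,
      z = algebraMap F F' b + algebraMap F F' c * x + algebraMap F F' d * x ^ 2) (o : OddT F) :
    OddT F' := oddT_cub h.quad hx hn hgen o

/-- **The step.** -/
theorem Six.step (h : Six) [Algebra K F'] [IsScalarTower K F F'] {α δ : F}
    (hx : x ^ 3 = algebraMap F F' α) (hn : ¬ ∃ y : F, algebraMap F F' y = x)
    (hgen : ∀ z : F', ∃ b c d : F,
      z = algebraMap F F' b + algebraMap F F' c * x + algebraMap F F' d * x ^ 2)
    (hδ : δ ≠ 0) (o : OddT F) (g1 : LConcl (Wu F δ)) (g2 : LConcl (Wu F (α * δ)))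
    (g3 : LConcl (Wu F (α ^ 2 * δ))) : LConcl (Wu F' (algebraMap F F' δ)) :=
  lconcl_step3 (ellK_six h.tr h.nm) h.A h.B h.quad hx hn hgen hδ o g1 g2 g3

end

end

end Pool.Agent.Lib.MP_1a91b9_ntN
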