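import Pool.Agent.Lib.MP_1a91b9_ntM.F4

/-!
# The L-series over a cubic extension
-/

set_option autoImplicit false

namespace Pool.Agent.Lib.MP_1a91b9_ntN

open NumberField IsDedekindDomain Polynomial WeierstrassCurve
  Pool.Agent.Lib.MP_1a91b9_nt Pool.Agent.Lib.MP_1a91b9_nuT Pool.Agent.Lib.MP_1a91b9_ntM
open Pool.Agent.Lib.MP_1a91b9_nuT.S4 (Lf Over)
open Pool.Agent.Lib.MP_1a91b9_nuX.PG Pool.Agent.Lib.MP_1a91b9_nuX.LG
open Pool.Agent.Lib.MP_1a91b9_nuX.PA (pC bC_eq)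
open Pool.Agent.Lib.MP_1a91b9_nuT.S7

universe u

variable [CD]

/-- the local factors of a curve over `F` in terms of the local factors of the curve and of its two twists over the
subfield `N` -/
def LocStep3 {N F : Type*} [Field N] [NumberField N] [Field F] [NumberField F] [Algebra N F]
    (ps pa pb : Ideal (𝓞 N) → 𝓞 K) (ps' : Ideal (𝓞 F) → 𝓞 K) : Prop :=
  ∀ (v : HeightOneSpectrum (𝓞 N)) (s : Finset (HeightOneSpectrum (𝓞 F))),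
    (∀ w : HeightOneSpectrum (𝓞 F), w ∈ s ↔ w.under (𝓞 N) = v) →
    ∏ w ∈ s, (1 - Polynomial.C (ps' w.asIdeal) * Polynomial.X ^ w.asIdeal.inertiaDeg (𝓞 N)) =
      (1 - Polynomial.C (ps v.asIdeal) * Polynomial.X) *
        (1 - Polynomial.C (pa v.asIdeal) * Polynomial.X) *
        (1 - Polynomial.C (pb v.asIdeal) * Polynomial.X)

section
variable {N F : Type u} [Field N] [NumberField N] [Field F] [NumberField F] [Algebra N F]
  {ps pa pb : Ideal (𝓞 N) → 𝓞 K} {ps' : Ideal (𝓞 F) → 𝓞 K}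

/-- the complex form -/
theorem LocStep3.complex [Algebra K F] (h : LocStep3 ps pa pb ps') (v : HeightOneSpectrum (𝓞 N))
    (x : ℂ) : ∏ w : Over F v, (1 - bC ps' w.1.asIdeal * x ^ w.1.asIdeal.inertiaDeg (𝓞 N)) =
      (1 - bC ps v.asIdeal * x) * (1 - bC pa v.asIdeal * x) * (1 - bC pb v.asIdeal * x) := by
  obtain ⟨τ, hτ⟩ : ∃ τ : 𝓞 K →+* ℂ, τ = (starRingEnd ℂ).comp
      (embK.toRingHom.comp (algebraMap (𝓞 K) K)) := ⟨_, rfl⟩
  obtain ⟨s, hs, hp⟩ := prod_over (F := F) v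
    (fun w => 1 - bC ps' w.asIdeal * x ^ w.asIdeal.inertiaDeg (𝓞 N))
  have h1 := h v s hs
  have h2 := congrArg (eval₂ τ x) h1
  rw [eval₂_finsetProd] at h2
  have e1 : ∀ w : HeightOneSpectrum (𝓞 F),
      eval₂ τ x (1 - Polynomial.C (ps' w.asIdeal) * Polynomial.X ^ w.asIdeal.inertiaDeg (𝓞 N)) =
        1 - bC ps' w.asIdeal * x ^ w.asIdeal.inertiaDeg (𝓞 N) := by
    intro w
    simp only [eval₂_mul, eval₂_sub, eval₂_one, eval₂_C, eval₂_X, eval₂_pow]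
    rw [hτ]
    rfl
  rw [Finset.prod_congr rfl fun w _ => e1 w] at h2
  rw [← hp, h2]
  simp only [eval₂_mul, eval₂_sub, eval₂_one, eval₂_C, eval₂_X]
  rw [hτ]
  rfl

/-- the complex form, the conjugate character -/
theorem LocStep3.complex' [Algebra K F] (h : LocStep3 ps pa pb ps') (v : HeightOneSpectrum (𝓞 N))
    (x : ℂ) : ∏ w : Over F v, (1 - pC ps' w.1.asIdeal * x ^ w.1.asIdeal.inertiaDeg (𝓞 N)) =
      (1 - pC ps v.asIdeal * x) * (1 - pC pa v.asIdeal * x) * (1 - pC pb v.asIdeal * x) := by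
  have h1 := congrArg (starRingEnd ℂ) (h.complex v ((starRingEnd ℂ) x))
  rw [map_prod] at h1
  simp only [map_mul, map_sub, map_one, map_pow, bC_eq, Complex.conj_conj] at h1
  exact h1

/-- the L-series of the characters -/
theorem Lf_step3 (f₁ f₂ f₃ : Ideal (𝓞 N) → ℂ) (f' : Ideal (𝓞 F) → ℂ)
    (h11 : f₁ 1 = 1) (h12 : ∀ I J, f₁ (I * J) = f₁ I * f₁ J)
    (h13 : ∀ I, ‖f₁ I‖ ≤ (Ideal.absNorm I : ℝ) ^ (1 / 2 : ℝ))
    (h21 : f₂ 1 = 1) (h22 : ∀ I J, f₂ (I * J) = f₂ I * f₂ J)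
    (h23 : ∀ I, ‖f₂ I‖ ≤ (Ideal.absNorm I : ℝ) ^ (1 / 2 : ℝ))
    (h31 : f₃ 1 = 1) (h32 : ∀ I J, f₃ (I * J) = f₃ I * f₃ J)
    (h33 : ∀ I, ‖f₃ I‖ ≤ (Ideal.absNorm I : ℝ) ^ (1 / 2 : ℝ))
    (h41 : f' 1 = 1) (h42 : ∀ I J, f' (I * J) = f' I * f' J)
    (h43 : ∀ I, ‖f' I‖ ≤ (Ideal.absNorm I : ℝ) ^ (1 / 2 : ℝ))
    (h : ∀ (v : HeightOneSpectrum (𝓞 N)) (x : ℂ),
      ∏ w : Over F v, (1 - f' w.1.asIdeal * x ^ w.1.asIdeal.inertiaDeg (𝓞 N)) =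
        (1 - f₁ v.asIdeal * x) * (1 - f₂ v.asIdeal * x) * (1 - f₃ v.asIdeal * x)) (s : ℂ)
    (hs : 3 / 2 < s.re) : Lf f' s = Lf f₁ s * Lf f₂ s * Lf f₃ s := by
  have hs' : 1 + 1 / 2 < s.re := by linarith
  have h1 := (S4.hasProd_Lf f₁ h11 h12 (1 / 2) (by norm_num) h13 s hs').2
  have h2 := (S4.hasProd_Lf f₂ h21 h22 (1 / 2) (by norm_num) h23 s hs').2
  have h3 := (S4.hasProd_Lf f₃ h31 h32 (1 / 2) (by norm_num) h33 s hs').2
  refine Lf_over f' h41 h42 h43 s hs ((h1.mul h2).mul h3) fun v => ?_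
  rw [h v, mul_inv, mul_inv, inv_inv, inv_inv, inv_inv]

end

/-- **The step.** -/
theorem lconcl_cub {N F : Type u} [Field N] [NumberField N] [Field F] [NumberField F]
    [Algebra N F] [Algebra K N] [Algebra K F] {W Wa Wb : WeierstrassCurve N}
    {W' : WeierstrassCurve F} {ps pa pb : Ideal (𝓞 N) → 𝓞 K} {ps' : Ideal (𝓞 F) → 𝓞 K}
    (h : PDat N W ps) (ha : PDat N Wa pa) (hb : PDat N Wb pb) (h' : PDat F W' ps')
    (hL : LocStep3 ps pa pb ps')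
    (g1 : LConcl W) (g2 : LConcl Wa) (g3 : LConcl Wb) : LConcl W' := by
  obtain ⟨g, hg, hg2, hg1⟩ := g1
  obtain ⟨k, hk, hk2, hk1⟩ := g2
  obtain ⟨l, hl, hl2, hl1⟩ := g3
  refine ⟨fun s => g s * k s * l s, (hg.mul hk).mul hl, fun s hs => ?_,
    mul_ne_zero (mul_ne_zero hg1 hk1) hl1⟩
  have e1 := Lf_step3 (pC ps) (pC pa) (pC pb) (pC ps') h.pC_one h.pC_mul h.nrm ha.pC_one ha.pC_mul
    ha.nrm hb.pC_one hb.pC_mul hb.nrm h'.pC_one h'.pC_mul h'.nrm hL.complex' s hs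
  have e2 := Lf_step3 (bC ps) (bC pa) (bC pb) (bC ps') h.bC_one h.bC_mul h.norm_bC ha.bC_one
    ha.bC_mul ha.norm_bC hb.bC_one hb.bC_mul hb.norm_bC h'.bC_one h'.bC_mul h'.norm_bC
    hL.complex s hs
  show g s * k s * l s = _
  rw [hg2 s hs, hk2 s hs, hl2 s hs, h.ser s hs, ha.ser s hs, hb.ser s hs, h'.ser s hs, e1, e2]
  ring

end Pool.Agent.Lib.MP_1a91b9_ntN
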