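import Pool.Agent.Lib.MP_1a91b9_ntN.F.Qd3
import Pool.Agent.Lib.MP_1a91b9_ntN.F.F4c

/-!
# The local factors of `y² + δ y = x³` in a cubic Kummer extension

`locStep3`: for a cubic extension `F' = F(∛α)` and a place `v` of `F`, the product over the places `w` of `F'` above `v` of the
factors `1 - ps'(w) X ^ f(w)` is `(1 - ps(v) X) (1 - pa(v) X) (1 - pb(v) X)`, where `ps`, `pa`, `pb` and `ps'` belong to
`y² + δ y = x³` over `F`, its twists by `α` and `α²` and the same curve over `F'`.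
-/

set_option autoImplicit false

namespace Pool.Agent.Lib.MP_1a91b9_ntN

open NumberField IsDedekindDomain WeierstrassCurve
  Pool.Agent.Lib.MP_1a91b9_nt Pool.Agent.Lib.MP_1a91b9_nuT
open Pool.Agent.Lib.MP_1a91b9_nuX.DB Pool.Agent.Lib.MP_1a91b9_nuX.GL
  Pool.Agent.Lib.MP_1a91b9_nuX.PG Pool.Agent.Lib.MP_1a91b9_nuX.PH
open Pool.Agent.Lib.MP_1a91b9_nuX Pool.Agent.Lib.MP_1a91b9_ntM

universe u

section
variable {F : Type u} [Field F] [NumberField F]

/-- the value of `z` at `v` is a cube -/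
def Cv (v : HeightOneSpectrum (𝓞 F)) (z : F) : Prop :=
  ∃ y : F, y ≠ 0 ∧ v.valuation F z = v.valuation F y ^ 3

theorem val_ne (v : HeightOneSpectrum (𝓞 F)) {z : F} (hz : z ≠ 0) : v.valuation F z ≠ 0 := by
  rw [Ne, map_eq_zero]
  exact hz

theorem log_mul3 (v : HeightOneSpectrum (𝓞 F)) {z z' : F} (hz : z ≠ 0) (hz' : z' ≠ 0) :
    WithZero.log (v.valuation F (z * z')) =
      WithZero.log (v.valuation F z) + WithZero.log (v.valuation F z') := by
  rw [map_mul, WithZero.log_mul (val_ne v hz) (val_ne v hz')]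

theorem log_pow3 (v : HeightOneSpectrum (𝓞 F)) (z : F) (n : ℕ) :
    WithZero.log (v.valuation F (z ^ n)) = n * WithZero.log (v.valuation F z) := by
  rw [map_pow, WithZero.log_pow, nsmul_eq_mul]

theorem cv_iff (v : HeightOneSpectrum (𝓞 F)) {z : F} (hz : z ≠ 0) :
    Cv v z ↔ (3 : ℤ) ∣ WithZero.log (v.valuation F z) := by
  have hv : v.valuation F z ≠ 0 := val_ne v hz
  constructor
  · rintro ⟨y, hy0, hy⟩
    rw [hy, WithZero.log_pow, nsmul_eq_mul]
    exact ⟨_, rfl⟩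
  · rintro ⟨m, hm⟩
    obtain ⟨π, hπ⟩ := v.valuation_exists_uniformizer F
    have hπ0 : π ≠ 0 := by
      rintro rfl
      rw [map_zero] at hπ
      exact WithZero.coe_ne_zero hπ.symm
    refine ⟨π ^ (-m), zpow_ne_zero _ hπ0, ?_⟩
    have h1 : v.valuation F π ^ (-m) = WithZero.exp m := by
      rw [hπ, ← WithZero.exp_zsmul]
      simp
    rw [map_zpow₀, h1, ← WithZero.exp_nsmul, nsmul_eq_mul]
    rw [show ((3 : ℕ) : ℤ) * m = 3 * m by norm_num, ← hm, WithZero.exp_log hv]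

theorem val_three {v : HeightOneSpectrum (𝓞 F)} (h3 : (3 : 𝓞 F) ∉ v.asIdeal) :
    v.valuation F (3 : F) = 1 := by
  have h10 : ¬ v.valuation F (((3 : 𝓞 F) : 𝓞 F) : F) < 1 := by
    rw [GM.val_lt_mem]
    exact h3
  have h11 := GM.val_le v (3 : 𝓞 F)
  have h12 : (((3 : 𝓞 F) : 𝓞 F) : F) = 3 := map_ofNat (algebraMap (𝓞 F) F) 3
  rw [h12] at h10 h11
  exact le_antisymm h11 (not_lt.1 h10)

theorem val_disc3 (v : HeightOneSpectrum (𝓞 F)) (δ : F) :
    v.valuation F (Wu F δ).Δ = v.valuation F 3 ^ 3 * v.valuation F δ ^ 4 := by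
  have e : (-27 : F) * δ ^ 4 = -(3 ^ 3 * δ ^ 4) := by ring
  rw [Wu_disc, e, Valuation.map_neg, map_mul, map_pow, map_pow]

/-- good reduction at the places prime to `3` where the value is a cube -/
theorem gd_of_cv {v : HeightOneSpectrum (𝓞 F)} (h3 : (3 : 𝓞 F) ∉ v.asIdeal) {δ : F}
    (h : Cv v δ) : Gd (Wu F δ) v := by
  obtain ⟨y, hy0, hy⟩ := h
  have hvy : v.valuation F y ≠ 0 := val_ne v hy0
  have hyi : y⁻¹ ≠ 0 := inv_ne_zero hy0
  refine ⟨Ds y⁻¹ hyi, ?_⟩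
  rw [Ds_Wu]
  have hval : v.valuation F (y⁻¹ ^ 3 * δ) = 1 := by
    rw [map_mul, map_pow, map_inv₀, hy, inv_pow, inv_mul_cancel₀ (pow_ne_zero 3 hvy)]
  refine ⟨⟨?_, ?_, ?_, ?_, ?_⟩, ?_⟩
  · show v.valuation F 0 ≤ 1
    rw [map_zero]
    exact zero_le_one
  · show v.valuation F 0 ≤ 1
    rw [map_zero]
    exact zero_le_one
  · show v.valuation F (y⁻¹ ^ 3 * δ) ≤ 1
    rw [hval]
  · show v.valuation F 0 ≤ 1
    rw [map_zero]
    exact zero_le_one
  · show v.valuation F 0 ≤ 1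
    rw [map_zero]
    exact zero_le_one
  · rw [val_disc3, hval, val_three h3, one_pow, one_pow, one_mul]

/-- the value of the discriminant at a place of good reduction -/
theorem disc_of_gd {v : HeightOneSpectrum (𝓞 F)} {δ : F} (h : Gd (Wu F δ) v) :
    ∃ u : F, u ≠ 0 ∧ v.valuation F 3 ^ 3 * v.valuation F δ ^ 4 = v.valuation F u ^ 12 := by
  obtain ⟨C, hC⟩ := h
  have h1 := hC.disc
  rw [variableChange_Δ, map_mul, val_disc3] at h1
  have hu : ((C.u : Fˣ) : F) ≠ 0 := C.u.ne_zero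
  have hvu : v.valuation F ((C.u : Fˣ) : F) ≠ 0 := val_ne v hu
  refine ⟨C.u, hu, ?_⟩
  rw [map_pow, Units.val_inv_eq_inv_val, map_inv₀, inv_pow,
    inv_mul_eq_one₀ (pow_ne_zero 12 hvu)] at h1
  exact h1.symm

/-- the value is a cube at the places prime to `3` of good reduction -/
theorem cv_of_gd {v : HeightOneSpectrum (𝓞 F)} (h3 : (3 : 𝓞 F) ∉ v.asIdeal) {δ : F}
    (h : Gd (Wu F δ) v) : Cv v δ := by
  obtain ⟨u, hu, h1⟩ := disc_of_gd h
  rw [val_three h3, one_pow, one_mul] at h1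
  refine ⟨u, hu, ?_⟩
  have h3 : v.valuation F δ ^ 4 = (v.valuation F u ^ 3) ^ 4 := by
    rw [h1, ← pow_mul]
  exact (pow_left_inj₀ zero_le zero_le (by norm_num : (4 : ℕ) ≠ 0)).1 h3

/-- the value of `3` at the places above `3` is twice an odd number -/
def OddT (F : Type*) [Field F] [NumberField F] : Prop :=
  ∀ v : HeightOneSpectrum (𝓞 F), (3 : 𝓞 F) ∈ v.asIdeal →
    ∃ n : ℤ, Odd n ∧ WithZero.log (v.valuation F (3 : F)) = 2 * n

/-- bad reduction at the places above `3` -/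
theorem bad_three (h : OddT F) {v : HeightOneSpectrum (𝓞 F)} (h3 : (3 : 𝓞 F) ∈ v.asIdeal) {δ : F}
    (hδ : δ ≠ 0) : ¬ Gd (Wu F δ) v := by
  intro hg
  obtain ⟨n, ⟨m, hm⟩, hn⟩ := h v h3
  obtain ⟨u, hu, h1⟩ := disc_of_gd hg
  have hch : CharZero F := NumberField.to_charZero
  have h30 : (3 : F) ≠ 0 := by norm_num
  have h2 := congrArg WithZero.log h1
  rw [WithZero.log_mul (pow_ne_zero 3 (val_ne v h30)) (pow_ne_zero 4 (val_ne v hδ)),
    WithZero.log_pow, WithZero.log_pow, WithZero.log_pow, hn] at h2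
  simp only [nsmul_eq_mul] at h2
  push_cast at h2
  omega

variable {F' : Type u} [Field F'] [NumberField F'] [Algebra F F']

/-- the ramification index divides the degree -/
theorem ram_dvd [IsGalois F F'] (hL : Module.finrank F F' = 3) (w : HeightOneSpectrum (𝓞 F')) :
    w.asIdeal.ramificationIdx (𝓞 F) ∣ 3 := by
  have hvp : (w.under (𝓞 F)).asIdeal.IsPrime := (w.under (𝓞 F)).isPrime
  have hvm : (w.under (𝓞 F)).asIdeal.IsMaximal := (w.under (𝓞 F)).isMaximal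
  have hfund := Ideal.ncard_primesOver_mul_ramificationIdxIn_mul_inertiaDegIn
    (w.under (𝓞 F)).asIdeal (𝓞 F') Gal(F'/F)
  have hcard : Nat.card Gal(F'/F) = 3 := by
    rw [IsGalois.card_aut_eq_finrank, hL]
  rw [hcard] at hfund
  have i1 : w.asIdeal.IsPrime := w.isPrime
  have i2 : w.asIdeal.LiesOver (w.under (𝓞 F)).asIdeal := ⟨rfl⟩
  have h1 : w.asIdeal.ramificationIdx (𝓞 F) =
      Ideal.ramificationIdxIn (w.under (𝓞 F)).asIdeal (𝓞 F') :=
    (Ideal.ramificationIdxIn_eq_ramificationIdx (w.under (𝓞 F)).asIdeal w.asIdeal Gal(F'/F)).symm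
  obtain ⟨c, hc⟩ : ∃ c, c = (w.under (𝓞 F)).asIdeal.ramificationIdxIn (𝓞 F') := ⟨_, rfl⟩
  rw [h1]
  rw [← hc] at hfund ⊢
  rw [← hfund]
  exact Dvd.dvd.mul_left (Dvd.intro _ rfl) _

theorem log_base (w : HeightOneSpectrum (𝓞 F')) (z : F) :
    WithZero.log (w.valuation F' (algebraMap F F' z)) =
      w.asIdeal.ramificationIdx (𝓞 F) * WithZero.log ((w.under (𝓞 F)).valuation F z) := by
  rw [GM.val_base, WithZero.log_pow, nsmul_eq_mul]

/-- the property of the places above `3` in a cubic extension -/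
theorem oddT_step [IsGalois F F'] (hL : Module.finrank F F' = 3) (h : OddT F) : OddT F' := by
  intro w hw
  have h1 : (3 : 𝓞 F) ∈ (w.under (𝓞 F)).asIdeal := by
    show algebraMap (𝓞 F) (𝓞 F') 3 ∈ w.asIdeal
    rw [map_ofNat]
    exact hw
  obtain ⟨n, hn1, hn2⟩ := h _ h1
  have h2 := log_base w (3 : F)
  rw [map_ofNat, hn2] at h2
  have h3 : Odd (w.asIdeal.ramificationIdx (𝓞 F)) := by
    rcases (Nat.dvd_prime Nat.prime_three).1 (ram_dvd hL w) with h4 | h4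
    · rw [h4]
      exact odd_one
    · rw [h4]
      decide
  refine ⟨w.asIdeal.ramificationIdx (𝓞 F) * n, ?_, by rw [h2]; ring⟩
  exact ((Int.odd_coe_nat _).2 h3).mul hn1

end

section
variable [CD]

/-- the cube root of unity -/
theorem root_spec (hta : ta ^ 2 - ta + 1 = 0) :
    1 + (-ta : 𝓞 K) + (-ta) ^ 2 = 0 ∧ (-ta : 𝓞 K) ^ 3 = 1 ∧ IsPrimitiveRoot (-ta : 𝓞 K) 3 := by
  have h1 : 1 + (-ta : 𝓞 K) + (-ta) ^ 2 = 0 := by linear_combination hta
  have h2 : (-ta : 𝓞 K) ^ 3 = 1 := by linear_combination ((-ta : 𝓞 K) - 1) * h1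
  refine ⟨h1, h2, ?_⟩
  have h3 : (-ta : 𝓞 K) ≠ 1 := by
    intro h4
    rw [h4] at h1
    have h5 : (3 : 𝓞 K) = 0 := by linear_combination h1
    have h6 := congrArg (algebraMap (𝓞 K) K) h5
    rw [map_ofNat, map_zero] at h6
    exact (by norm_num : (3 : K) ≠ 0) h6
  rw [IsPrimitiveRoot.iff_orderOf]
  exact orderOf_eq_prime h2 h3

variable {F : Type u} [Field F] [NumberField F]

omit [NumberField F] in
theorem root_F [Algebra K F] (hta : ta ^ 2 - ta + 1 = 0) :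
    IsPrimitiveRoot (algebraMap K F ((-ta : 𝓞 K) : K)) 3 :=
  ((root_spec hta).2.2.map_of_injective (RingOfIntegers.coe_injective)).map_of_injective
    (algebraMap K F).injective

theorem EF_cd3 (hA : CD.A = 0) (hB : CD.B = 16) : EF Kb = ⟨0, 0, 0, 0, 16⟩ := by
  refine WeierstrassCurve.ext ?_ ?_ ?_ ?_ ?_
  · exact map_zero _
  · exact map_zero _
  · exact map_zero _
  · show algebraMap K Kb (((CD.A : ℤ) : K)) = 0
    rw [hA, Int.cast_zero, map_zero]
  · show algebraMap K Kb (((CD.B : ℤ) : K)) = 16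
    rw [hB, map_intCast]
    norm_num

omit [NumberField F] in
/-- the isomorphism over the algebraic closure -/
theorem Dc_EF (hA : CD.A = 0) (hB : CD.B = 16) [Algebra F Kb] {s : Kb} (hs0 : s ≠ 0) {δ : F}
    (hs : 8 * s ^ 3 = algebraMap F Kb δ) :
    Dc s hs0 • EF Kb = (Wu F δ).map (algebraMap F Kb) := by
  rw [EF_cd3 hA hB, Dc_smul, Wu_map, hs]

omit [NumberField F] in
theorem exists_cbrt [Algebra F Kb] {δ : F} (hδ : δ ≠ 0) :
    ∃ s : Kb, s ≠ 0 ∧ 8 * s ^ 3 = algebraMap F Kb δ := by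
  obtain ⟨s, hs⟩ := IsAlgClosed.exists_pow_nat_eq (algebraMap F Kb δ / 8) (n := 3) (by norm_num)
  have h8 : (8 : Kb) ≠ 0 := by norm_num
  have hs' : 8 * s ^ 3 = algebraMap F Kb δ := by
    rw [hs]
    field_simp
  refine ⟨s, ?_, hs'⟩
  rintro rfl
  rw [zero_pow three_ne_zero, mul_zero, eq_comm, map_eq_zero] at hs'
  exact hδ hs'

theorem fm_Wu (hA : CD.A = 0) (hB : CD.B = 16) [Algebra K F] {δ : F} (hδ : δ ≠ 0) :
    Fm (Wu F δ) := by
  obtain ⟨ι⟩ := PH.exists_emb F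
  let iA : Algebra F Kb := (ι : F →+* Kb).toAlgebra
  obtain ⟨s, hs0, hs⟩ := exists_cbrt (F := F) hδ
  exact ⟨ι, Dc s hs0, Dc_EF hA hB hs0 hs⟩

end

section
variable [CD] [DecidableEq Kb] {F : Type u} [Field F] [NumberField F] [Algebra K F] [Algebra F Kb]
  [IsScalarTower K F Kb] {v : HeightOneSpectrum (𝓞 F)} {α : F} {s r : Kb}

/-- the value of the character of the twist -/
theorem frv_twist3 (hs0 : s ≠ 0) (hr0 : r ≠ 0) (hr : r ^ 3 = algebraMap F Kb α) {W₂ : WeierstrassCurve F}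
    (hD2 : Dc (r * s) (mul_ne_zero hr0 hs0) • EF Kb = W₂.map (algebraMap F Kb))
    {V : ValuationSubring Kb} (hV : Abv v V) {σ : Kb ≃ₐ[F] Kb}
    (hF : IsFr V (Ideal.absNorm v.asIdeal) σ) {z : 𝓞 K} (hz : z ^ 3 = 1)
    (hσ : σ r = algebraMap K Kb (z : K) * r) {ψ₁ ψ₂ : 𝓞 K} (h1 : FrV (Dc s hs0) v ψ₁)
    (h2 : FrV (Dc (r * s) (mul_ne_zero hr0 hs0)) v ψ₂) : z * ψ₂ = ψ₁ := by
  obtain ⟨φ, hφ⟩ := trp_exists hD2 σ
  have hVP : Abv (v.under (𝓞 K)) V := abv_res hV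
  refine eq_of_tr hVP fun T hT => ?_
  have h3 := h1 V hV σ hF _ (trp_twist3 hs0 hr0 hr σ hz hσ hφ) T (tr_ta hT)
  have h4 := h2 V hV σ hF φ hφ T (tr_ta hT)
  rw [← h3, sm_mul, ← h4]
  rfl

end

section
variable [CD] {F F' : Type u} [Field F] [NumberField F] [Field F'] [NumberField F'] [Algebra F F']
  [Algebra K F] [Algebra K F'] [IsScalarTower K F F'] {x : F'}

omit [CD] [NumberField F] [NumberField F'] [Algebra K F] [Algebra K F'] [IsScalarTower K F F'] in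
/-- the twist becomes isomorphic to the curve -/
theorem Ds_up3 {α δ : F} (hx0 : x ≠ 0) (hx : x ^ 3 = algebraMap F F' α) :
    Ds x hx0 • Wu F' (algebraMap F F' δ) = (Wu F (α * δ)).map (algebraMap F F') := by
  rw [Ds_Wu, Wu_map, hx, map_mul]

/-- the values of the characters of the twists at an inert place -/
theorem hv_inert3 (hE : EllK) (hA : CD.A = 0) (hB : CD.B = 16) (hta : ta ^ 2 - ta + 1 = 0)
    (hgen : ∀ z : F', ∃ b c d : F,
      z = algebraMap F F' b + algebraMap F F' c * x + algebraMap F F' d * x ^ 2) {α δ : F}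
    (hα : α ≠ 0) (hδ : δ ≠ 0) (hx : x ^ 3 = algebraMap F F' α) {v : HeightOneSpectrum (𝓞 F)}
    (hv : ∀ w : HeightOneSpectrum (𝓞 F'), w.under (𝓞 F) = v → w.asIdeal.inertiaDeg (𝓞 F) = 3)
    (g1 : Gd (Wu F δ) v) (g2 : Gd (Wu F (α * δ)) v) (g3 : Gd (Wu F (α ^ 2 * δ)) v) :
    ∃ z : 𝓞 K, 1 + z + z ^ 2 = 0 ∧ z * Hv (Wu F (α * δ)) v = Hv (Wu F δ) v ∧
      z ^ 2 * Hv (Wu F (α ^ 2 * δ)) v = Hv (Wu F δ) v := by
  classical
  obtain ⟨ι'⟩ := PH.exists_emb F'
  let iA' : Algebra F' Kb := (ι' : F' →+* Kb).toAlgebra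
  have iT' : IsScalarTower K F' Kb := IsScalarTower.of_algebraMap_eq fun x => (ι'.commutes x).symm
  let iA : Algebra F Kb := ((ι'.comp (IsScalarTower.toAlgHom K F F')) : F →+* Kb).toAlgebra
  have iT2 : IsScalarTower F F' Kb := IsScalarTower.of_algebraMap_eq fun x => rfl
  have iT : IsScalarTower K F Kb := IsScalarTower.of_algebraMap_eq fun x =>
    ((ι'.comp (IsScalarTower.toAlgHom K F F')).commutes x).symm
  have hFK : Algebra.IsAlgebraic F Kb := Algebra.IsAlgebraic.tower_top (K := K) F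
  obtain ⟨s, hs0, hs⟩ := exists_cbrt (F := F) hδ
  obtain ⟨r, hr⟩ : ∃ r, r = algebraMap F' Kb x := ⟨_, rfl⟩
  have hr3 : r ^ 3 = algebraMap F Kb α := by
    rw [hr, ← map_pow, hx, ← IsScalarTower.algebraMap_apply F F' Kb]
  have hr0 : r ≠ 0 := by
    rintro rfl
    rw [zero_pow three_ne_zero, eq_comm, map_eq_zero] at hr3
    exact hα hr3
  have hrr0 : r ^ 2 ≠ 0 := pow_ne_zero 2 hr0
  have hrr3 : (r ^ 2) ^ 3 = algebraMap F Kb (α ^ 2) := by
    rw [map_pow, ← hr3]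
    ring
  have hD1 : Dc s hs0 • EF Kb = (Wu F δ).map (algebraMap F Kb) := Dc_EF hA hB hs0 hs
  have hD2 : Dc (r * s) (mul_ne_zero hr0 hs0) • EF Kb =
      (Wu F (α * δ)).map (algebraMap F Kb) := Dc_EF hA hB _ (by
        rw [map_mul, ← hr3, ← hs]
        ring)
  have hD3 : Dc (r ^ 2 * s) (mul_ne_zero hrr0 hs0) • EF Kb =
      (Wu F (α ^ 2 * δ)).map (algebraMap F Kb) := Dc_EF hA hB _ (by
        rw [map_mul, ← hrr3, ← hs]
        ring)
  have h1 := hv_frv hE (fm_Wu hA hB hδ) g1 hD1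
  have h2 := hv_frv hE (fm_Wu hA hB (mul_ne_zero hα hδ)) g2 hD2
  have h3 := hv_frv hE (fm_Wu hA hB (mul_ne_zero (pow_ne_zero 2 hα) hδ)) g3 hD3
  obtain ⟨V, hV⟩ := exists_abv (Ω := Kb) v
  obtain ⟨σ, hσ⟩ := exists_fr hV
  have hne : σ r ≠ r := by
    rw [hr]
    exact frob_move hgen hv hV σ hσ
  have hroot : (σ r / r) ^ 3 = 1 := by
    rw [div_pow, ← map_pow, hr3, AlgEquiv.commutes]
    refine div_self ?_
    rw [Ne, map_eq_zero]
    exact hα
  obtain ⟨i, hi, h4⟩ := root_mem (F := F) (F' := Kb) (root_F hta) hroot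
  obtain ⟨e1, e2, -⟩ := root_spec hta
  have hi0 : i ≠ 0 := by
    rintro rfl
    rw [pow_zero, map_one, div_eq_one_iff_eq hr0] at h4
    exact hne h4
  obtain ⟨z, hz⟩ : ∃ z : 𝓞 K, z = (-ta) ^ i := ⟨_, rfl⟩
  have hz1 : 1 + z + z ^ 2 = 0 := by
    rw [hz]
    rcases (by omega : i = 1 ∨ i = 2) with h5 | h5
    · rw [h5, pow_one]
      exact e1
    · rw [h5]
      linear_combination e1 + (-ta) * e2
  have hz3 : z ^ 3 = 1 := by linear_combination (z - 1) * hz1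
  have hzr : σ r = algebraMap K Kb (z : K) * r := by
    rw [div_eq_iff hr0] at h4
    rw [h4, hz, ← map_pow, ← IsScalarTower.algebraMap_apply K F Kb]
    rfl
  refine ⟨z, hz1, frv_twist3 hs0 hr0 hr3 hD2 hV hσ hz3 hzr h1 h2, ?_⟩
  refine frv_twist3 hs0 hrr0 hrr3 hD3 hV hσ (by rw [← pow_mul, mul_comm, pow_mul, hz3, one_pow])
    ?_ h1 h3
  have e3 : ((z ^ 2 : 𝓞 K) : K) = (z : K) ^ 2 := map_pow (algebraMap (𝓞 K) K) z 2
  rw [map_pow, hzr, mul_pow, e3, map_pow]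

/-- **The local factors in a cubic extension.** -/
theorem locStep3 (hE : EllK) (hA : CD.A = 0) (hB : CD.B = 16) (hta : ta ^ 2 - ta + 1 = 0)
    (hgen : ∀ z : F', ∃ b c d : F,
      z = algebraMap F F' b + algebraMap F F' c * x + algebraMap F F' d * x ^ 2) {α δ : F}
    (hα : α ≠ 0) (hδ : δ ≠ 0) (hx : x ^ 3 = algebraMap F F' α)
    (hn : ¬ ∃ y : F, algebraMap F F' y = x) (o : OddT F) :
    LocStep3 (psP (Wu F δ)) (psP (Wu F (α * δ))) (psP (Wu F (α ^ 2 * δ)))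
      (psP (Wu F' (algebraMap F F' δ))) := by
  intro v s hs
  obtain ⟨hL, hgal⟩ := cub_data hgen (root_F hta) hx hn
  have o' : OddT F' := oddT_step hL o
  have hx0 : x ≠ 0 := by
    rintro rfl
    rw [zero_pow three_ne_zero, eq_comm, map_eq_zero] at hx
    exact hα hx
  have hxx0 : x ^ 2 ≠ 0 := pow_ne_zero 2 hx0
  have hxx : (x ^ 2) ^ 3 = algebraMap F F' (α ^ 2) := by
    rw [map_pow, ← hx]
    ring
  have hδ' : algebraMap F F' δ ≠ 0 := by
    rw [Ne, map_eq_zero]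
    exact hδ
  have hα2 : α ^ 2 ≠ 0 := pow_ne_zero 2 hα
  have hαδ : α * δ ≠ 0 := mul_ne_zero hα hδ
  have hααδ : α ^ 2 * δ ≠ 0 := mul_ne_zero hα2 hδ
  have hmap : (Wu F δ).map (algebraMap F F') = Wu F' (algebraMap F F' δ) := Wu_map δ
  have u1 : ∀ w ∈ s, Gd (Wu F δ) v → Hv (Wu F' (algebraMap F F' δ)) w =
      Hv (Wu F δ) v ^ w.asIdeal.inertiaDeg (𝓞 F) := by
    intro w hw hg
    have h1 := (hs w).1 hw
    rw [← h1] at hg
    have h2 := hv_up hE (fm_Wu hA hB hδ) w hg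
    rw [hmap, h1] at h2
    exact h2
  have u2 : ∀ w ∈ s, Gd (Wu F (α * δ)) v → Hv (Wu F' (algebraMap F F' δ)) w =
      Hv (Wu F (α * δ)) v ^ w.asIdeal.inertiaDeg (𝓞 F) := by
    intro w hw hg
    have h1 := (hs w).1 hw
    rw [← h1] at hg
    have h2 := hv_up hE (fm_Wu hA hB hαδ) w hg
    rw [← hv_iso (Ds x hx0) (Ds_up3 hx0 hx) w, h1] at h2
    exact h2
  have u3 : ∀ w ∈ s, Gd (Wu F (α ^ 2 * δ)) v → Hv (Wu F' (algebraMap F F' δ)) w =
      Hv (Wu F (α ^ 2 * δ)) v ^ w.asIdeal.inertiaDeg (𝓞 F) := by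
    intro w hw hg
    have h1 := (hs w).1 hw
    rw [← h1] at hg
    have h2 := hv_up hE (fm_Wu hA hB hααδ) w hg
    rw [← hv_iso (Ds (x ^ 2) hxx0) (Ds_up3 hxx0 hxx) w, h1] at h2
    exact h2
  have t3 : ∀ w ∈ s, ((3 : 𝓞 F') ∈ w.asIdeal ↔ (3 : 𝓞 F) ∈ v.asIdeal) := by
    intro w hw
    rw [← (hs w).1 hw]
    show _ ↔ algebraMap (𝓞 F) (𝓞 F') 3 ∈ w.asIdeal
    rw [map_ofNat]
  simp only [psP_prime]
  have hone : (∀ w ∈ s, ¬ Gd (Wu F' (algebraMap F F' δ)) w) →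
      ∏ w ∈ s, (1 - Polynomial.C (Hv (Wu F' (algebraMap F F' δ)) w) *
        Polynomial.X ^ w.asIdeal.inertiaDeg (𝓞 F)) = 1 := by
    intro hb
    refine Finset.prod_eq_one fun w hw => ?_
    rw [hv_bad (hb w hw), map_zero, zero_mul, sub_zero]
  by_cases h3 : (3 : 𝓞 F) ∈ v.asIdeal
  · rw [hv_bad (bad_three o h3 hδ), hv_bad (bad_three o h3 hαδ), hv_bad (bad_three o h3 hααδ),
      hone fun w hw => bad_three o' ((t3 w hw).2 h3) hδ']
    simp
  obtain ⟨d, hd⟩ : ∃ d, d = WithZero.log (v.valuation F δ) := ⟨_, rfl⟩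
  obtain ⟨a, ha⟩ : ∃ a, a = WithZero.log (v.valuation F α) := ⟨_, rfl⟩
  have c1 : Gd (Wu F δ) v ↔ (3 : ℤ) ∣ d := by
    rw [hd, ← cv_iff v hδ]
    exact ⟨cv_of_gd h3, gd_of_cv h3⟩
  have c2 : Gd (Wu F (α * δ)) v ↔ (3 : ℤ) ∣ a + d := by
    rw [hd, ha, ← log_mul3 v hα hδ, ← cv_iff v hαδ]
    exact ⟨cv_of_gd h3, gd_of_cv h3⟩
  have c3 : Gd (Wu F (α ^ 2 * δ)) v ↔ (3 : ℤ) ∣ 2 * a + d := by
    have e : 2 * a + d = WithZero.log (v.valuation F (α ^ 2 * δ)) := by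
      rw [log_mul3 v hα2 hδ, log_pow3, hd, ha]
      norm_num
    rw [e, ← cv_iff v hααδ]
    exact ⟨cv_of_gd h3, gd_of_cv h3⟩
  by_cases h4 : (3 : ℤ) ∣ a
  · have hr : ∀ w ∈ s, w.asIdeal.ramificationIdx (𝓞 F) = 1 := by
      intro w hw
      rw [ha, ← cv_iff v hα] at h4
      obtain ⟨y, hy0, hy⟩ := h4
      refine ram_one3 hgen hα hx (fun h => h3 ((t3 w hw).1 h)) hy0 ?_
      rw [(hs w).1 hw]
      exact hy
    by_cases h5 : (3 : ℤ) ∣ d
    · have g1 := c1.2 h5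
      have g2 := c2.2 (by omega)
      have g3 := c3.2 (by omega)
      rcases cub_fin hL v s hs with ⟨hc, hfe⟩ | ⟨w, hw, hf, he⟩ | ⟨w, hw, hf, he⟩
      · have h6 : ∀ w ∈ s, 1 - Polynomial.C (Hv (Wu F' (algebraMap F F' δ)) w) *
            Polynomial.X ^ w.asIdeal.inertiaDeg (𝓞 F) =
            1 - Polynomial.C (Hv (Wu F δ) v) * Polynomial.X := by
          intro w hw
          rw [u1 w hw g1, (hfe w hw).1, pow_one, pow_one]
        obtain ⟨w, hw⟩ := Finset.card_pos.1 (by rw [hc]; norm_num : 0 < s.card)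
        have h7 := u1 w hw g1
        have h8 : Hv (Wu F (α * δ)) v = Hv (Wu F δ) v := by
          have h9 := h7
          rw [u2 w hw g2, (hfe w hw).1, pow_one, pow_one] at h9
          exact h9
        have h9 : Hv (Wu F (α ^ 2 * δ)) v = Hv (Wu F δ) v := by
          have h10 := h7
          rw [u3 w hw g3, (hfe w hw).1, pow_one, pow_one] at h10
          exact h10
        rw [Finset.prod_congr rfl h6, Finset.prod_const, hc, h8, h9]
        ring
      · have hws : w ∈ s := by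
          rw [hw]
          exact Finset.mem_singleton_self w
        obtain ⟨z, hz1, hz2, hz3⟩ := hv_inert3 hE hA hB hta hgen hα hδ hx (fun w' hw' => by
          have h6 := (hs w').2 hw'
          rw [hw, Finset.mem_singleton] at h6
          rw [h6, hf]) g1 g2 g3
        have hz : z ^ 3 = 1 := by linear_combination (z - 1) * hz1
        obtain ⟨p, hp⟩ : ∃ p, p = Hv (Wu F δ) v := ⟨_, rfl⟩
        rw [← hp] at hz2 hz3
        have h7 : Hv (Wu F (α * δ)) v = z ^ 2 * p := by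
          linear_combination z ^ 2 * hz2 - Hv (Wu F (α * δ)) v * hz
        have h8 : Hv (Wu F (α ^ 2 * δ)) v = z * p := by
          linear_combination z * hz3 - Hv (Wu F (α ^ 2 * δ)) v * hz
        rw [hw, Finset.prod_singleton, u1 w hws g1, hf, ← hp, h7, h8]
        simp only [map_mul, map_pow]
        have hZ1 : 1 + Polynomial.C z + Polynomial.C z ^ 2 = (0 : Polynomial (𝓞 K)) := by
          rw [← map_one Polynomial.C, ← map_pow, ← map_add, ← map_add, hz1, map_zero]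
        have hZ : Polynomial.C z ^ 3 = (1 : Polynomial (𝓞 K)) := by
          rw [← map_pow, hz, map_one]
        linear_combination (Polynomial.C p * Polynomial.X -
            Polynomial.C p ^ 2 * Polynomial.X ^ 2 * Polynomial.C z) * hZ1
          + (Polynomial.C p ^ 3 * Polynomial.X ^ 3) * hZ
      · have hws : w ∈ s := by
          rw [hw]
          exact Finset.mem_singleton_self w
        have h6 := hr w hws
        omega
    · have b1 : ¬ Gd (Wu F δ) v := fun h => h5 (c1.1 h)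
      have b2 : ¬ Gd (Wu F (α * δ)) v := fun h => h5 (by have := c2.1 h; omega)
      have b3 : ¬ Gd (Wu F (α ^ 2 * δ)) v := fun h => h5 (by have := c3.1 h; omega)
      rw [hv_bad b1, hv_bad b2, hv_bad b3, hone ?_]
      · simp
      · intro w hw hg
        have h6 := cv_of_gd (fun h => h3 ((t3 w hw).1 h)) hg
        rw [cv_iff w hδ', log_base, hr w hw, (hs w).1 hw, ← hd, Nat.cast_one, one_mul] at h6
        exact h5 h6
  · have hxv : ∀ w ∈ s, (w.asIdeal.ramificationIdx (𝓞 F) : ℤ) * a =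
        3 * WithZero.log (w.valuation F' x) := by
      intro w hw
      have h5 := log_base w α
      rw [← hx, log_pow3, (hs w).1 hw, ← ha] at h5
      rw [← h5]
      norm_num
    have hns : ∃ w, s = {w} ∧ w.asIdeal.inertiaDeg (𝓞 F) = 1 := by
      rcases cub_fin hL v s hs with ⟨hc, hfe⟩ | ⟨w, hw, hf, he⟩ | ⟨w, hw, hf, he⟩
      · obtain ⟨w, hw⟩ := Finset.card_pos.1 (by rw [hc]; norm_num : 0 < s.card)
        have h5 := hxv w hw
        rw [(hfe w hw).2, Nat.cast_one, one_mul] at h5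
        exact absurd ⟨_, h5⟩ h4
      · have h5 := hxv w (by rw [hw]; exact Finset.mem_singleton_self w)
        rw [he, Nat.cast_one, one_mul] at h5
        exact absurd ⟨_, h5⟩ h4
      · exact ⟨w, hw, hf⟩
    obtain ⟨w, hw, hf⟩ := hns
    have hws : w ∈ s := by
      rw [hw]
      exact Finset.mem_singleton_self w
    have hcase : (3 : ℤ) ∣ d ∨ (3 : ℤ) ∣ a + d ∨ (3 : ℤ) ∣ 2 * a + d := by
      have h6 : a % 3 = 1 ∨ a % 3 = 2 := by omega
      have h7 : d % 3 = 0 ∨ d % 3 = 1 ∨ d % 3 = 2 := by omega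
      rcases h6 with h6 | h6 <;> rcases h7 with h7 | h7 | h7 <;> omega
    rcases hcase with h5 | h5 | h5
    · have b2 : ¬ Gd (Wu F (α * δ)) v := fun h => h4 (by have := c2.1 h; omega)
      have b3 : ¬ Gd (Wu F (α ^ 2 * δ)) v := fun h => h4 (by have := c3.1 h; omega)
      rw [hw, Finset.prod_singleton, u1 w hws (c1.2 h5), hf, hv_bad b2, hv_bad b3]
      simp
    · have b1 : ¬ Gd (Wu F δ) v := fun h => h4 (by have := c1.1 h; omega)
      have b3 : ¬ Gd (Wu F (α ^ 2 * δ)) v := fun h => h4 (by have := c3.1 h; omega)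
      rw [hw, Finset.prod_singleton, u2 w hws (c2.2 h5), hf, hv_bad b1, hv_bad b3]
      simp
    · have b1 : ¬ Gd (Wu F δ) v := fun h => h4 (by have := c1.1 h; omega)
      have b2 : ¬ Gd (Wu F (α * δ)) v := fun h => h4 (by have := c2.1 h; omega)
      rw [hw, Finset.prod_singleton, u3 w hws (c3.2 h5), hf, hv_bad b1, hv_bad b2]
      simp

end

end Pool.Agent.Lib.MP_1a91b9_ntN
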