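import Pool.Agent.Lib.MP_1a91b9_ntM.Tw
import Pool.Agent.Lib.MP_1a91b9_nuX.HU.Unit

/-!
# Cubic twists and Frobenius elements

`Wu F δ`: the curve `y² + δ y = x³`, a cubic twist of `y² = x³ + 16`. If the Frobenius elements at `v` multiply the cube root of
`α` by the cube root of unity `z`, then `z` times the value at `v` of the character of the twist by `α` is the value of the
character of the curve.
-/

set_option autoImplicit false

namespace Pool.Agent.Lib.MP_1a91b9_ntN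

open NumberField IsDedekindDomain WeierstrassCurve
  Pool.Agent.Lib.MP_1a91b9_nt Pool.Agent.Lib.MP_1a91b9_nuT
open Pool.Agent.Lib.MP_1a91b9_nuX.DB Pool.Agent.Lib.MP_1a91b9_nuX.GL
  Pool.Agent.Lib.MP_1a91b9_nuX.PG Pool.Agent.Lib.MP_1a91b9_nuX.PH
open Pool.Agent.Lib.MP_1a91b9_nuX Pool.Agent.Lib.MP_1a91b9_ntM

universe u

/-- the curve `y² + δ y = x³` over `F` -/
def Wu (F : Type*) [Field F] (δ : F) : WeierstrassCurve F := ⟨0, 0, δ, 0, 0⟩

theorem Wu_map {F F' : Type*} [Field F] [Field F'] [Algebra F F'] (δ : F) :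
    (Wu F δ).map (algebraMap F F') = Wu F' (algebraMap F F' δ) := by
  refine WeierstrassCurve.ext ?_ ?_ ?_ ?_ ?_
  · exact map_zero _
  · exact map_zero _
  · rfl
  · exact map_zero _
  · exact map_zero _

theorem Wu_disc (F : Type*) [Field F] (δ : F) : (Wu F δ).Δ = -27 * δ ^ 4 := by
  simp only [WeierstrassCurve.Δ, WeierstrassCurve.b₂, WeierstrassCurve.b₄, WeierstrassCurve.b₆,
    WeierstrassCurve.b₈, Wu]
  ring

/-- the scaling of the curve -/
theorem Ds_Wu {F : Type*} [Field F] (s : F) (hs : s ≠ 0) (δ : F) :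
    Ds s hs • Wu F δ = Wu F (s ^ 3 * δ) := by
  refine WeierstrassCurve.ext ?_ ?_ ?_ ?_ ?_
  · simp [Ds, variableChange_a₁, Wu]
  · simp [Ds, variableChange_a₂, Wu]
  · simp [Ds, variableChange_a₃, Wu]
  · simp [Ds, variableChange_a₄, Wu]
  · simp [Ds, variableChange_a₆, Wu]

/-- the change of variables from `y² = x³ + 16` to `y² + 8 s³ y = x³` -/
noncomputable def Dc {L : Type*} [Field L] (s : L) (hs : s ≠ 0) : VariableChange L :=
  ⟨(Units.mk0 s hs)⁻¹, 0, 0, 4⟩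

theorem Dc_smul {L : Type*} [Field L] (s : L) (hs : s ≠ 0) :
    Dc s hs • (⟨0, 0, 0, 0, 16⟩ : WeierstrassCurve L) = Wu L (8 * s ^ 3) := by
  refine WeierstrassCurve.ext ?_ ?_ ?_ ?_ ?_
  · simp [Dc, variableChange_a₁, Wu]
  · simp [Dc, variableChange_a₂, Wu]
  · simp [Dc, variableChange_a₃, Wu]
    ring
  · simp [Dc, variableChange_a₄, Wu]
  · simp [Dc, variableChange_a₆, Wu]
    right
    norm_num

variable [CD]

theorem cx_Dc (s : Kb) (hs : s ≠ 0) (P : Pt Kb) : cx (Dc s hs) P = xc P * s ^ 2 := by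
  have h : (((Dc s hs).u : Kbˣ) : Kb) = s⁻¹ := by simp [Dc]
  rw [cx, h]
  show (xc P - 0) / s⁻¹ ^ 2 = _
  rw [sub_zero, inv_pow, div_inv_eq_mul]

theorem cy_Dc (s : Kb) (hs : s ≠ 0) (P : Pt Kb) : cy (Dc s hs) P = (yc P - 4) * s ^ 3 := by
  have h : (((Dc s hs).u : Kbˣ) : Kb) = s⁻¹ := by simp [Dc]
  rw [cy, h]
  show (yc P - 0 * (xc P - 0) - 4) / s⁻¹ ^ 3 = _
  rw [zero_mul, sub_zero, inv_pow, div_inv_eq_mul]

section
variable [DecidableEq Kb] {F : Type u} [Field F] [NumberField F] [Algebra K F] [Algebra F Kb]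
  [IsScalarTower K F Kb] {v : HeightOneSpectrum (𝓞 F)} {δ α : F} {s r : Kb}

/-- the multiplication by a cube root of unity -/
theorem xy_cube {z : 𝓞 K} (hz : z ^ 3 = 1) {P : Pt Kb} (hP : P ≠ 0) :
    sm Kb z P ≠ 0 ∧ xc (sm Kb z P) * algebraMap K Kb (z : K) ^ 2 = xc P ∧
      yc (sm Kb z P) = yc P := by
  have hu : z * z ^ 2 = 1 := by
    rw [← hz]
    ring
  have hu' : z ^ 2 * z = 1 := by
    rw [← hz]
    ring
  obtain ⟨h1, h2⟩ := HU.sm_unit (F := Kb) IsAlgClosed.lift (⟨z, z ^ 2, hu, hu'⟩ : (𝓞 K)ˣ) P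
  have h3 : algebraMap K Kb (z : K) ^ 3 = 1 := by
    rw [← map_pow]
    have h4 : ((z ^ 3 : 𝓞 K) : K) = (z : K) ^ 3 := map_pow (algebraMap (𝓞 K) K) z 3
    rw [← h4, hz]
    have h5 : ((1 : 𝓞 K) : K) = 1 := map_one (algebraMap (𝓞 K) K)
    rw [h5, map_one]
  refine ⟨fun h0 => hP ?_, h1, ?_⟩
  · have h4 : sm Kb (z ^ 2 * z) P = P := by rw [hu', sm_one]
    rw [← h4, sm_mul, h0, map_zero]
  · have h6 : yc (sm Kb z P) * algebraMap K Kb (z : K) ^ 3 = yc P := h2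
    rwa [h3, mul_one] at h6

omit [NumberField F] [Algebra K F] [IsScalarTower K F Kb] in
/-- the transport of an automorphism which multiplies the cube root of `α` by `z` -/
theorem trp_twist3 (hs0 : s ≠ 0) (hr0 : r ≠ 0) (hr : r ^ 3 = algebraMap F Kb α)
    (σ : Kb ≃ₐ[F] Kb) {z : 𝓞 K} (hz : z ^ 3 = 1)
    (hσ : σ r = algebraMap K Kb (z : K) * r) {φ : Pt Kb →+ Pt Kb}
    (h : Trp (Dc (r * s) (mul_ne_zero hr0 hs0)) σ φ) :
    Trp (Dc s hs0) σ ((sm Kb z).comp φ) := by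
  intro T hT
  obtain ⟨h1, h2, h3⟩ := h T hT
  rw [cx_Dc, cx_Dc] at h2
  rw [cy_Dc, cy_Dc] at h3
  have hr2 : σ (r ^ 3) = r ^ 3 := by
    rw [hr, AlgEquiv.commutes]
  have e1 : ((sm Kb z).comp φ) T = sm Kb z (φ T) := rfl
  obtain ⟨n0, n1, n2⟩ := xy_cube hz h1
  refine ⟨?_, ?_, ?_⟩
  · rw [e1]
    exact n0
  · rw [e1, cx_Dc, cx_Dc]
    have h4 : algebraMap K Kb (z : K) ≠ 0 := by
      rw [Ne, map_eq_zero]
      intro h5
      have h6 : z = 0 := RingOfIntegers.ext h5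
      rw [h6, zero_pow three_ne_zero] at hz
      exact zero_ne_one hz
    rw [mul_pow, map_mul, map_mul, map_pow σ r, hσ] at h2
    rw [map_mul]
    refine mul_left_cancel₀ (pow_ne_zero 2 (mul_ne_zero h4 hr0)) ?_
    linear_combination h2 + r ^ 2 * s ^ 2 * n1
  · rw [e1, cy_Dc, cy_Dc, n2]
    rw [mul_pow, map_mul, map_mul, hr2] at h3
    rw [map_mul]
    refine mul_left_cancel₀ (pow_ne_zero 3 hr0) ?_
    linear_combination h3

end

end Pool.Agent.Lib.MP_1a91b9_ntN
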